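import Mathlib

/-!
Absolute values of a number field at a prime.
-/

set_option autoImplicit false

open IsDedekindDomain NumberField

namespace Pool.Agent.Helper892.ER

section na

variable {K : Type} [Field K] {f : AbsoluteValue K ℝ}

lemma na_add_le (hf : IsNonarchimedean f) {x y : K} {B : ℝ} (hx : f x ≤ B) (hy : f y ≤ B) :
    f (x + y) ≤ B := (hf x y).trans (max_le hx hy)

lemma na_sub_le (hf : IsNonarchimedean f) {x y : K} {B : ℝ} (hx : f x ≤ B) (hy : f y ≤ B) :
    f (x - y) ≤ B := by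
  rw [sub_eq_add_neg]
  exact na_add_le hf hx (by rwa [map_neg_eq_map])

lemma na_add_lt (hf : IsNonarchimedean f) {x y : K} {B : ℝ} (hx : f x < B) (hy : f y < B) :
    f (x + y) < B := (hf x y).trans_lt (max_lt hx hy)

lemma na_sub_lt (hf : IsNonarchimedean f) {x y : K} {B : ℝ} (hx : f x < B) (hy : f y < B) :
    f (x - y) < B := by
  rw [sub_eq_add_neg]
  exact na_add_lt hf hx (by rwa [map_neg_eq_map])

lemma na_add_eq (hf : IsNonarchimedean f) {x y : K} (h : f y < f x) : f (x + y) = f x := by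
  rw [IsNonarchimedean.add_eq_max_of_ne hf h.ne', max_eq_left h.le]

lemma na_sub_eq (hf : IsNonarchimedean f) {x y : K} (h : f y < f x) : f (x - y) = f x := by
  rw [sub_eq_add_neg]
  exact na_add_eq hf (by rwa [map_neg_eq_map])

lemma na_sum_le (hf : IsNonarchimedean f) {ι : Type} (s : Finset ι) (g : ι → K) {B : ℝ}
    (hB : 0 ≤ B) (h : ∀ i ∈ s, f (g i) ≤ B) : f (∑ i ∈ s, g i) ≤ B := by
  classical
  induction s using Finset.induction_on with
  | empty => simpa using hB
  | insert a s ha ih =>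
    rw [Finset.sum_insert ha]
    exact na_add_le hf (h a (Finset.mem_insert_self a s))
      (ih fun i hi => h i (Finset.mem_insert_of_mem hi))

end na

variable {k : Type} [Field k] [NumberField k] (p : HeightOneSpectrum (𝓞 k))

/-- the absolute value at a prime -/
noncomputable def av : AbsoluteValue k ℝ := HeightOneSpectrum.adicAbv k p

/-- the norm of the prime -/
noncomputable def qq : ℝ := (Ideal.absNorm p.asIdeal : ℕ)

lemma one_lt_qq : 1 < qq p := by
  unfold qq
  exact_mod_cast HeightOneSpectrum.one_lt_absNorm p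

lemma av_na : IsNonarchimedean (av p) := HeightOneSpectrum.isNonarchimedean_adicAbv k p

lemma av_int (x : 𝓞 k) : av p (x : k) ≤ 1 :=
  p.adicAbv_coe_le_one (HeightOneSpectrum.one_lt_absNorm_nnreal p) x

lemma av_lt_one_iff (x : 𝓞 k) : av p (x : k) < 1 ↔ x ∈ p.asIdeal :=
  p.adicAbv_coe_lt_one_iff (HeightOneSpectrum.one_lt_absNorm_nnreal p) x

lemma av_def (x : k) : av p x =
    ((WithZeroMulInt.toNNReal (HeightOneSpectrum.absNorm_ne_zero p) (p.valuation k x) : NNReal) : ℝ) :=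
  rfl

lemma toNNReal_exp (n : ℤ) : ((WithZeroMulInt.toNNReal (HeightOneSpectrum.absNorm_ne_zero p)
    (WithZero.exp n) : NNReal) : ℝ) = qq p ^ n := by
  rw [WithZeroMulInt.toNNReal_neg_apply _ (WithZero.exp_ne_zero)]
  unfold qq
  push_cast
  rfl

lemma av_le_iff (x : k) (n : ℤ) : av p x ≤ qq p ^ n ↔ p.valuation k x ≤ WithZero.exp n := by
  rw [av_def, ← toNNReal_exp, NNReal.coe_le_coe]
  exact (WithZeroMulInt.toNNReal_strictMono (HeightOneSpectrum.one_lt_absNorm_nnreal p)).le_iff_le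

lemma av_pow_iff (x : 𝓞 k) (n : ℕ) : av p (x : k) ≤ qq p ^ (-(n : ℤ)) ↔ x ∈ p.asIdeal ^ n := by
  rw [av_le_iff, ← HeightOneSpectrum.intValuation_le_pow_iff_mem]
  exact Iff.of_eq (congrArg (· ≤ _) (p.valuation_of_algebraMap (K := k) x))

/-- approximation of local integers by integers -/
lemma approx (x : k) (hx : av p x ≤ 1) (n : ℕ) : ∃ y : 𝓞 k, av p (y - x) ≤ qq p ^ (-(n : ℤ)) := by
  have h1 : p.valuation k x ≤ 1 := by
    have := (av_le_iff p x 0).1 (by simpa using hx)
    simpa using this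
  obtain ⟨y, hy⟩ := p.exists_valuation_sub_lt_of_integer h1
    (Units.mk0 (WithZero.exp (-(n : ℤ))) (WithZero.exp_ne_zero))
  exact ⟨y, (av_le_iff p _ _).2 hy.le⟩

/-- classes modulo a power of the prime -/
lemma exists_class (n : ℕ) : ∃ c : k → 𝓞 k ⧸ p.asIdeal ^ n, ∀ x y : k, av p x ≤ 1 → av p y ≤ 1 →
    c x = c y → av p (x - y) ≤ qq p ^ (-(n : ℤ)) := by
  classical
  have h : ∀ x : k, ∃ y : 𝓞 k, av p x ≤ 1 → av p (y - x) ≤ qq p ^ (-(n : ℤ)) := by
    intro x
    by_cases hx : av p x ≤ 1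
    · obtain ⟨y, hy⟩ := approx p x hx n
      exact ⟨y, fun _ => hy⟩
    · exact ⟨0, fun h => absurd h hx⟩
  choose g hg using h
  refine ⟨fun x => Ideal.Quotient.mk _ (g x), fun x y hx hy hxy => ?_⟩
  have h1 : g x - g y ∈ p.asIdeal ^ n := Ideal.Quotient.eq.1 hxy
  have h2 := (av_pow_iff p (g x - g y) n).2 h1
  have e : x - y = ((g x - g y : 𝓞 k) : k) - (((g x : k) - x) - ((g y : k) - y)) := by
    have : ((g x - g y : 𝓞 k) : k) = (g x : k) - g y := rfl
    rw [this]
    ring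
  rw [e]
  exact na_sub_le (av_na p) h2 (na_sub_le (av_na p) (hg x hx) (hg y hy))

lemma card_class (n : ℕ) : (Nat.card (𝓞 k ⧸ p.asIdeal ^ n) : ℝ) = qq p ^ n := by
  have : Nat.card (𝓞 k ⧸ p.asIdeal ^ n) = Ideal.absNorm (p.asIdeal ^ n) := by
    rw [Ideal.absNorm_apply, Submodule.cardQuot_apply]
  rw [this, map_pow]
  unfold qq
  push_cast
  rfl

end Pool.Agent.Helper892.ER
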