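import Pool.Agent.Q19.SU.Up
import Pool.Agent.Helper892.ER.Abs

/-!
Proximity functions over extensions.
-/

set_option autoImplicit false

open IsDedekindDomain NumberField Module

namespace Pool.Agent.Helper892.ER

variable {k : Type} [Field k] [NumberField k]

/-- the primes above given primes -/
def above (S : Finset (HeightOneSpectrum (𝓞 k))) (L : Type) [Field L] [NumberField L] [Algebra k L] :
    Set (HeightOneSpectrum (𝓞 L)) := {w | ∃ v ∈ S, w.asIdeal.LiesOver v.asIdeal}

lemma above_finite (S : Finset (HeightOneSpectrum (𝓞 k))) (L : Type) [Field L] [NumberField L]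
    [Algebra k L] : (above S L).Finite := by
  have h1 : above S L ⊆ ⋃ v ∈ S, {w | w.asIdeal.LiesOver v.asIdeal} := by
    rintro w ⟨v, hv, hw⟩
    simp only [Set.mem_iUnion]
    exact ⟨v, hv, hw⟩
  refine (S.finite_toSet.biUnion fun v _ => ?_).subset h1
  have h2 : (Ideal.primesOver v.asIdeal (𝓞 L)).Finite :=
    IsDedekindDomain.primesOver_finite v.asIdeal (𝓞 L)
  refine Set.Finite.of_finite_image (f := fun w : HeightOneSpectrum (𝓞 L) => w.asIdeal)
    (h2.subset ?_) (fun w _ w' _ h => HeightOneSpectrum.ext h)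
  rintro _ ⟨w, hw, rfl⟩
  exact ⟨w.isPrime, hw⟩

lemma mk_eq_av (p : HeightOneSpectrum (𝓞 k)) (x : k) : FinitePlace.mk p x = av p x :=
  (FinitePlace.norm_embedding' (v := p) (x := x))

lemma prox_ge {S : Finset (HeightOneSpectrum (𝓞 k))} {p : HeightOneSpectrum (𝓞 k)} (hp : p ∈ S)
    (L : Type) [Field L] [NumberField L] [Algebra k L] (x : k) :
    finrank k L * Real.posLog (av p x) ≤
      ∑ᶠ w ∈ above S L, Real.posLog ((FinitePlace.mk w).1 (algebraMap k L x)) := by
  classical
  obtain ⟨W, hW1, hW2⟩ := Pool.Agent.Q19.SU.exists_above L p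
  have hfin := above_finite S L
  rw [finsum_mem_eq_finite_toFinset_sum _ hfin]
  have hsub : W ⊆ hfin.toFinset := by
    intro w hw
    rw [Set.Finite.mem_toFinset]
    exact ⟨p, hp, hW1 w hw⟩
  refine le_trans (le_of_eq ?_) (Finset.sum_le_sum_of_subset_of_nonneg hsub fun w _ _ =>
    Real.posLog_nonneg)
  rw [← hW2]
  push_cast
  rw [Finset.sum_mul]
  refine Finset.sum_congr rfl fun w hw => ?_
  have h1 := Pool.Agent.Q19.SU.fv_ext (L := L) p w (hW1 w hw) x
  have h2 : Pool.Agent.H691R3.fv p x = av p x := mk_eq_av p x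
  have h3 : (FinitePlace.mk w).1 (algebraMap k L x) = av p x ^ Pool.Agent.Q19.SU.ldeg p w := by
    rw [← h2]
    exact h1
  rw [h3]
  exact (Real.posLog_pow _ _).symm

end Pool.Agent.Helper892.ER
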