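import Pool.Agent.Helper892.ER.Abs
import Pool.Agent.Helper892.VE.Rep
import Pool.Agent.Helper892.VE.Field

/-!
Values of functions on `y² = x³ + a x + b`, up to squares, as integers of bounded norm, at points
which are close to the origin at a prime.
-/

set_option autoImplicit false

open IsDedekindDomain NumberField Height Module Polynomial

namespace Pool.Agent.Helper892.ER

open Pool.Agent.Helper892.VE

variable {k : Type} [Field k] [NumberField k]

/-- a power of a prime is principal -/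
lemma exists_gen (p : HeightOneSpectrum (𝓞 k)) : ∃ (n : ℕ) (π : 𝓞 k), 1 ≤ n ∧ π ≠ 0 ∧
    p.asIdeal ^ n = Ideal.span {π} := by
  classical
  have hmem : p.asIdeal ∈ nonZeroDivisors (Ideal (𝓞 k)) := mem_nonZeroDivisors_of_ne_zero p.ne_bot
  have h1 : ClassGroup.mk0 (⟨p.asIdeal, hmem⟩ ^ (Fintype.card (ClassGroup (𝓞 k)))) = 1 := by
    rw [map_pow, pow_card_eq_one]
  have hmem2 : p.asIdeal ^ Fintype.card (ClassGroup (𝓞 k)) ∈ nonZeroDivisors (Ideal (𝓞 k)) :=
    pow_mem hmem _
  have h2 : (p.asIdeal ^ Fintype.card (ClassGroup (𝓞 k))).IsPrincipal := by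
    rw [← ClassGroup.mk0_eq_one_iff hmem2, ← h1]
    rfl
  obtain ⟨π, hπ⟩ := h2
  refine ⟨Fintype.card (ClassGroup (𝓞 k)), π, Fintype.card_pos, ?_, hπ⟩
  rintro rfl
  rw [Submodule.span_zero_singleton] at hπ
  exact pow_ne_zero _ p.ne_bot hπ

/-- a bound for the value of a form at an archimedean place -/
lemma frm_le (v : InfinitePlace k) (Φ : (𝓞 k)[X]) (e : ℕ) (s t : 𝓞 k) :
    v ((frm Φ e s t : 𝓞 k) : k) ≤ (∑ i ∈ Finset.range (e + 1), v (Φ.coeff i : k)) *
      (⨆ i, v ((![s, t] i : 𝓞 k) : k)) ^ e := by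
  set M : ℝ := ⨆ i, v ((![s, t] i : 𝓞 k) : k) with hM
  have hbdd : BddAbove (Set.range fun i => v ((![s, t] i : 𝓞 k) : k)) := (Set.finite_range _).bddAbove
  have hp : v (s : k) ≤ M := le_ciSup (f := fun i => v ((![s, t] i : 𝓞 k) : k)) hbdd 0
  have hq : v (t : k) ≤ M := le_ciSup (f := fun i => v ((![s, t] i : 𝓞 k) : k)) hbdd 1
  have hM0 : 0 ≤ M := (apply_nonneg v _).trans hp
  have e1 : ((frm Φ e s t : 𝓞 k) : k) =
      ∑ i ∈ Finset.range (e + 1), (Φ.coeff i : k) * (s : k) ^ i * (t : k) ^ (e - i) := by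
    unfold frm
    change algebraMap (𝓞 k) k _ = _
    rw [map_sum]
    refine Finset.sum_congr rfl fun i _ => ?_
    rw [map_mul, map_mul, map_pow, map_pow]
  rw [e1, Finset.sum_mul]
  refine (v.1.sum_le _ _).trans (Finset.sum_le_sum fun i hi => ?_)
  have hi' : i ≤ e := by
    rw [Finset.mem_range] at hi
    omega
  change v ((Φ.coeff i : k) * (s : k) ^ i * (t : k) ^ (e - i)) ≤ _
  rw [map_mul, map_mul, map_pow, map_pow, mul_assoc]
  refine mul_le_mul_of_nonneg_left ?_ (apply_nonneg v _)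
  have : M ^ e = M ^ i * M ^ (e - i) := by
    rw [← pow_add]
    congr 1
    omega
  rw [this]
  exact mul_le_mul (pow_le_pow_left₀ (apply_nonneg v _) hp _)
    (pow_le_pow_left₀ (apply_nonneg v _) hq _) (pow_nonneg (apply_nonneg v _) _)
    (pow_nonneg hM0 _)

/-- the cubic -/
noncomputable def cub (a b : 𝓞 k) : (𝓞 k)[X] := X ^ 3 + C a * X + C b

lemma cub_aeval (a b : 𝓞 k) (x : k) : aeval x (cub a b) = x ^ 3 + a * x + b := by
  simp only [cub, map_add, map_mul, map_pow, aeval_X, aeval_C]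

lemma cub_deg (a b : 𝓞 k) : (cub a b).natDegree ≤ 4 := by
  unfold cub
  compute_degree!

/-- the product formula for the norm -/
lemma norm_eq (z : k) : |(Algebra.norm ℚ z : ℝ)| = ∏ v : InfinitePlace k, v z ^ v.mult := by
  rw [InfinitePlace.prod_eq_abs_norm z]
  push_cast
  rfl

/-- the integers `G` attached to the points -/
theorem exists_G (a b : 𝓞 k) (A B : (𝓞 k)[X]) {M : ℕ} (hM : 2 ≤ M) (hA : A.natDegree ≤ M)
    (hB : B.natDegree ≤ M - 2) : ∃ C : ℝ, ∀ x y : k, y ^ 2 = x ^ 3 + a * x + b →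
    aeval x A + aeval x B * y ≠ 0 → ∃ G s t : 𝓞 k, t ≠ 0 ∧ x * t = s ∧
      (G : k) = (t : k) ^ M * (aeval x A + aeval x B * y) ∧
      Real.log |(Algebra.norm ℚ (G : k) : ℝ)| ≤ M * logHeight₁ x + C := by
  obtain ⟨D, hD, hfrac⟩ := exists_frac k
  -- the local constants
  set KA : InfinitePlace k → ℝ := fun v => ∑ i ∈ Finset.range (M + 1), v (A.coeff i : k) with hKA
  set KB : InfinitePlace k → ℝ := fun v => ∑ i ∈ Finset.range (M - 2 + 1), v (B.coeff i : k)
    with hKB
  set KF : InfinitePlace k → ℝ := fun v => ∑ i ∈ Finset.range (4 + 1), v ((cub a b).coeff i : k)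
    with hKF
  have hKA0 : ∀ v, 0 ≤ KA v := fun v => Finset.sum_nonneg fun i _ => apply_nonneg v _
  have hKB0 : ∀ v, 0 ≤ KB v := fun v => Finset.sum_nonneg fun i _ => apply_nonneg v _
  have hKF0 : ∀ v, 0 ≤ KF v := fun v => Finset.sum_nonneg fun i _ => apply_nonneg v _
  set KG : InfinitePlace k → ℝ := fun v => KA v + KB v * (KF v + 1) + 1 with hKG
  have hKG0 : ∀ v, 0 < KG v := fun v => by
    have := mul_nonneg (hKB0 v) (add_nonneg (hKF0 v) zero_le_one)
    have := hKA0 v
    simp only [hKG]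
    linarith
  set CG : ℝ := ∏ v : InfinitePlace k, KG v ^ v.mult with hCG
  have hCG0 : 0 < CG := Finset.prod_pos fun v _ => pow_pos (hKG0 v) _
  refine ⟨Real.log CG + M * Real.log D, fun x y hxy hg => ?_⟩
  obtain ⟨s, t, ht, hst, harch⟩ := hfrac x
  have htk : (t : k) ≠ 0 := RingOfIntegers.coe_ne_zero_iff.2 ht
  have e1 : ((frm A M s t : 𝓞 k) : k) = (t : k) ^ M * aeval x A := frm_eq k hA hst
  have e2 : ((frm B (M - 2) s t : 𝓞 k) : k) = (t : k) ^ (M - 2) * aeval x B :=
    frm_eq k hB hst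
  have e3 : ((frm (cub a b) 4 s t : 𝓞 k) : k) = ((t : k) ^ 2 * y) ^ 2 := by
    rw [frm_eq k (cub_deg a b) hst, cub_aeval, ← hxy]
    ring
  have hint : IsIntegral ℤ ((t : k) ^ 2 * y) := by
    refine IsIntegral.of_pow (n := 2) (by norm_num) ?_
    rw [← e3]
    exact RingOfIntegers.isIntegral_coe _
  set Y : 𝓞 k := ⟨(t : k) ^ 2 * y, hint⟩ with hY
  have hY' : (Y : k) = (t : k) ^ 2 * y := rfl
  set G : 𝓞 k := frm A M s t + frm B (M - 2) s t * Y with hG
  have hG0 : (G : k) = ((frm A M s t : 𝓞 k) : k) +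
      ((frm B (M - 2) s t : 𝓞 k) : k) * (Y : k) := rfl
  have hG' : (G : k) = (t : k) ^ M * (aeval x A + aeval x B * y) := by
    rw [hG0, e1, e2, hY']
    have : (t : k) ^ M = (t : k) ^ (M - 2) * (t : k) ^ 2 := by
      rw [← pow_add]
      congr 1
      omega
    rw [this]
    ring
  refine ⟨G, s, t, ht, hst, hG', ?_⟩
  have hGne : (G : k) ≠ 0 := by
    rw [hG']
    exact mul_ne_zero (pow_ne_zero _ htk) hg
  have hNG : 0 < |(Algebra.norm ℚ (G : k) : ℝ)| := by
    rw [abs_pos]
    have : Algebra.norm ℚ (G : k) ≠ 0 := by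
      rw [Algebra.norm_ne_zero_iff]
      exact hGne
    exact_mod_cast this
  have harch0 : 0 ≤ arch s t := Finset.prod_nonneg fun v _ => pow_nonneg
    (Real.iSup_nonneg fun i => apply_nonneg v _) _
  have hle : |(Algebra.norm ℚ (G : k) : ℝ)| ≤ CG * arch s t ^ M := by
    rw [norm_eq, arch, hCG, ← Finset.prod_pow, ← Finset.prod_mul_distrib]
    refine Finset.prod_le_prod (fun v _ => pow_nonneg (apply_nonneg v _) _) fun v _ => ?_
    rw [← pow_mul, mul_comm v.mult M, pow_mul, ← mul_pow]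
    refine pow_le_pow_left₀ (apply_nonneg v _) ?_ _
    set Q : ℝ := ⨆ i, v ((![s, t] i : 𝓞 k) : k) with hQ
    have hQ0 : 0 ≤ Q := Real.iSup_nonneg fun i => apply_nonneg v _
    have b1 : v ((frm A M s t : 𝓞 k) : k) ≤ KA v * Q ^ M := frm_le v A M s t
    have b2 : v ((frm B (M - 2) s t : 𝓞 k) : k) ≤ KB v * Q ^ (M - 2) :=
      frm_le v B (M - 2) s t
    have b3 : v (Y : k) ≤ (KF v + 1) * Q ^ 2 := by
      have c1 : v (Y : k) ^ 2 ≤ KF v * Q ^ 4 := by
        rw [← map_pow, hY', ← e3]
        exact frm_le v (cub a b) 4 s t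
      have c2 : KF v * Q ^ 4 ≤ ((KF v + 1) * Q ^ 2) ^ 2 := by
        have c3 : ((KF v + 1) * Q ^ 2) ^ 2 = (KF v + 1) ^ 2 * Q ^ 4 := by ring
        rw [c3]
        refine mul_le_mul_of_nonneg_right ?_ (by positivity)
        nlinarith [hKF0 v, sq_nonneg (KF v)]
      exact le_of_sq_le_sq (c1.trans c2) (mul_nonneg (by linarith [hKF0 v]) (by positivity))
    have b0 : v (G : k) ≤ v ((frm A M s t : 𝓞 k) : k) +
        v (((frm B (M - 2) s t : 𝓞 k) : k) * (Y : k)) := by
      rw [hG0]
      exact v.1.add_le _ _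
    rw [map_mul] at b0
    refine b0.trans ?_
    have b4 : v ((frm B (M - 2) s t : 𝓞 k) : k) * v (Y : k) ≤
        (KB v * Q ^ (M - 2)) * ((KF v + 1) * Q ^ 2) :=
      mul_le_mul b2 b3 (apply_nonneg v _) (mul_nonneg (hKB0 v) (by positivity))
    have b5 : (KB v * Q ^ (M - 2)) * ((KF v + 1) * Q ^ 2) = KB v * (KF v + 1) * Q ^ M := by
      have : Q ^ M = Q ^ (M - 2) * Q ^ 2 := by
        rw [← pow_add]
        congr 1
        omega
      rw [this]
      ring
    rw [b5] at b4
    have b6 : (0 : ℝ) ≤ Q ^ M := by positivity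
    simp only [hKG]
    nlinarith
  have h2 := Real.log_le_log hNG (hle.trans (mul_le_mul_of_nonneg_left
    (pow_le_pow_left₀ harch0 harch _) hCG0.le))
  rw [Real.log_mul hCG0.ne' (by have := mulHeight₁_pos x; positivity), Real.log_pow,
    Real.log_mul (by positivity) (mulHeight₁_ne_zero x)] at h2
  rw [logHeight₁_eq_log_mulHeight₁]
  linarith

/-- the value of a polynomial at a prime -/
lemma av_aeval_le (p : HeightOneSpectrum (𝓞 k)) (Φ : (𝓞 k)[X]) {d : ℕ} (hd : Φ.natDegree ≤ d)
    {x : k} (hx : 1 ≤ av p x) : av p (aeval x Φ) ≤ av p x ^ d := by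
  rw [aeval_eq_sum_range' (Nat.lt_succ_of_le hd)]
  refine na_sum_le (av_na p) _ _ (by positivity) fun i hi => ?_
  have hi' : i ≤ d := by
    rw [Finset.mem_range] at hi
    omega
  rw [Algebra.smul_def, map_mul, map_pow]
  calc av p (algebraMap (𝓞 k) k (Φ.coeff i)) * av p x ^ i ≤ 1 * av p x ^ i :=
        mul_le_mul_of_nonneg_right (av_int p _) (by positivity)
    _ = av p x ^ i := one_mul _
    _ ≤ av p x ^ d := pow_le_pow_right₀ hx hi'

/-- the norm of the discriminant of the field of definition of a point -/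
theorem exists_field_pt (p : HeightOneSpectrum (𝓞 k)) (a b : 𝓞 k) (A B : (𝓞 k)[X]) {N e : ℕ}
    (hN : 1 ≤ N) (he : 2 ≤ N * e) (hA : A.natDegree ≤ N * e - 1) (hB : B.natDegree ≤ N * e - 2) :
    ∃ C : ℝ, ∀ x y : k, y ^ 2 = x ^ 3 + a * x + b → 1 < av p x → av p y ^ 2 = av p x ^ 3 →
    aeval x A + aeval x B * y ≠ 0 → ∃ (G' : 𝓞 k) (σ : k), G' ≠ 0 ∧ σ ≠ 0 ∧
      (G' : k) = σ ^ N * (aeval x A + aeval x B * y) ∧
      Real.log |(Algebra.norm ℚ (G' : k) : ℝ)| ≤
        N * e * logHeight₁ x - Real.log (av p x) / 2 + C := by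
  obtain ⟨C0, hC0⟩ := exists_G a b A B he (hA.trans (Nat.sub_le _ _)) hB
  obtain ⟨n, π, hn, hπ0, hπ⟩ := exists_gen p
  have hq1 := one_lt_qq p
  have hq0 : 0 < qq p := by linarith
  have hlq : 0 < Real.log (qq p) := Real.log_pos hq1
  refine ⟨C0 + (N * n + 1) * Real.log (qq p), fun x y hxy hx hyx hg => ?_⟩
  obtain ⟨G, s, t, ht, hst, hG, hGn⟩ := hC0 x y hxy hg
  have htk : (t : k) ≠ 0 := RingOfIntegers.coe_ne_zero_iff.2 ht
  set X := av p x with hX
  have hXpos : 0 < X := by linarith
  -- the value at the prime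
  have ht1 : av p (t : k) * X ≤ 1 := by
    rw [hX, ← map_mul, mul_comm, hst]
    exact av_int p s
  have hGp : av p (G : k) ^ 2 * X ≤ 1 := by
    have c1 : (av p (t : k) * X) ^ (2 * (N * e)) ≤ 1 := pow_le_one₀ (by positivity) ht1
    have c2 : av p (aeval x A + aeval x B * y) ^ 2 ≤ X ^ (2 * (N * e) - 1) := by
      have d1 := av_aeval_le p A hA hx.le
      have d2 := av_aeval_le p B hB hx.le
      rw [← hX] at d1 d2
      rcases le_total (av p (aeval x A)) (av p (aeval x B * y)) with h | h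
      · have d3 : av p (aeval x A + aeval x B * y) ≤ av p (aeval x B * y) :=
          na_add_le (av_na p) h le_rfl
        calc av p (aeval x A + aeval x B * y) ^ 2 ≤ av p (aeval x B * y) ^ 2 :=
              pow_le_pow_left₀ ((av p).nonneg _) d3 2
          _ = av p (aeval x B) ^ 2 * X ^ 3 := by rw [map_mul, mul_pow, hyx]
          _ ≤ (X ^ (N * e - 2)) ^ 2 * X ^ 3 := mul_le_mul_of_nonneg_right
              (pow_le_pow_left₀ ((av p).nonneg _) d2 2) (by positivity)
          _ = X ^ (2 * (N * e) - 1) := by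
              rw [← pow_mul, ← pow_add]
              congr 1
              omega
      · have d3 : av p (aeval x A + aeval x B * y) ≤ av p (aeval x A) :=
          na_add_le (av_na p) le_rfl h
        calc av p (aeval x A + aeval x B * y) ^ 2 ≤ av p (aeval x A) ^ 2 :=
              pow_le_pow_left₀ ((av p).nonneg _) d3 2
          _ ≤ (X ^ (N * e - 1)) ^ 2 := pow_le_pow_left₀ ((av p).nonneg _) d1 2
          _ = X ^ (2 * (N * e) - 2) := by
              rw [← pow_mul]
              congr 1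
              omega
          _ ≤ X ^ (2 * (N * e) - 1) := pow_le_pow_right₀ hx.le (by omega)
    have c3 : av p (G : k) ^ 2 * X = (av p (t : k)) ^ (2 * (N * e)) *
        av p (aeval x A + aeval x B * y) ^ 2 * X := by
      rw [hG, map_mul, map_pow, mul_pow, ← pow_mul]
      congr 3
      ring
    rw [c3]
    calc (av p (t : k)) ^ (2 * (N * e)) * av p (aeval x A + aeval x B * y) ^ 2 * X ≤
          (av p (t : k)) ^ (2 * (N * e)) * X ^ (2 * (N * e) - 1) * X :=
          mul_le_mul_of_nonneg_right (mul_le_mul_of_nonneg_left c2 (by positivity)) hXpos.le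
      _ = (av p (t : k) * X) ^ (2 * (N * e)) := by
          rw [mul_assoc, ← pow_succ, mul_pow]
          congr 2
          omega
      _ ≤ 1 := c1
  -- the power of the prime
  obtain ⟨m, hm1, hm2⟩ := exists_nat_pow_near hx.le (by nlinarith : 1 < qq p ^ 2)
  rw [← pow_mul] at hm1 hm2
  have hGm : G ∈ p.asIdeal ^ m := by
    rw [← av_pow_iff]
    have c1 : av p (G : k) ^ 2 ≤ (qq p ^ (-(m : ℤ))) ^ 2 := by
      have c2 : (qq p ^ (-(m : ℤ))) ^ 2 = (qq p ^ (2 * m))⁻¹ := by
        rw [zpow_neg, zpow_natCast, inv_pow, ← pow_mul, mul_comm m 2]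
      rw [c2]
      calc av p (G : k) ^ 2 ≤ X⁻¹ := by
            rw [le_inv_comm₀ (by
              by_contra h0
              push Not at h0
              have : av p (G : k) ^ 2 = 0 := le_antisymm h0 (sq_nonneg _)
              have h1 : av p (G : k) = 0 := by simpa using this
              have h2 : (G : k) = 0 := (map_eq_zero _).1 h1
              rw [h2] at hG
              exact mul_ne_zero (pow_ne_zero _ htk) hg hG.symm) hXpos]
            rw [← one_div, le_div_iff₀' (by
              by_contra h0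
              push Not at h0
              have : av p (G : k) ^ 2 = 0 := le_antisymm h0 (sq_nonneg _)
              have h1 : av p (G : k) = 0 := by simpa using this
              have h2 : (G : k) = 0 := (map_eq_zero _).1 h1
              rw [h2] at hG
              exact mul_ne_zero (pow_ne_zero _ htk) hg hG.symm)]
            exact hGp
        _ ≤ (qq p ^ (2 * m))⁻¹ := inv_anti₀ (by positivity) hm1
    exact le_of_sq_le_sq c1 (by positivity)
  -- removal of the power
  have hNn : 0 < N * n := Nat.mul_pos hN hn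
  set j := m / (N * n) with hj
  have hj1 : N * n * j ≤ m := Nat.mul_div_le m (N * n)
  have hj2 : m < N * n * j + N * n := by
    have := Nat.lt_mul_div_succ m hNn
    rw [hj]
    linarith
  have hdvd : π ^ (N * j) ∣ G := by
    rw [← Ideal.mem_span_singleton, ← Ideal.span_singleton_pow, ← hπ, ← pow_mul]
    refine Ideal.pow_le_pow_right ?_ hGm
    calc n * (N * j) = N * n * j := by ring
      _ ≤ m := hj1
  obtain ⟨G', hG'⟩ := hdvd
  have hπk : (π : k) ≠ 0 := RingOfIntegers.coe_ne_zero_iff.2 hπ0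
  have hGk : (G : k) = (π : k) ^ (N * j) * (G' : k) := by
    rw [hG']
    change algebraMap (𝓞 k) k (π ^ (N * j) * G') = _
    rw [map_mul, map_pow]
  have hGne : (G : k) ≠ 0 := by
    rw [hG]
    exact mul_ne_zero (pow_ne_zero _ htk) hg
  have hG'k : (G' : k) ≠ 0 := by
    intro h
    rw [h, mul_zero] at hGk
    exact hGne hGk
  refine ⟨G', (t : k) ^ e / (π : k) ^ j, ne_of_coe hG'k, div_ne_zero (pow_ne_zero _ htk)
    (pow_ne_zero _ hπk), ?_, ?_⟩
  · have : (G' : k) = (G : k) / (π : k) ^ (N * j) := by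
      rw [hGk]
      field_simp
    rw [this, hG, div_pow, ← pow_mul, ← pow_mul, mul_comm e N, mul_comm j N]
    field_simp
  · -- norms
    have c1 : |(Algebra.norm ℚ (π : k) : ℝ)| = qq p ^ n := by
      have d1 : (Ideal.absNorm (Ideal.span {π}) : ℝ) = |(Algebra.norm ℚ (π : k) : ℝ)| := by
        rw [Ideal.absNorm_span_singleton, ← Algebra.coe_norm_int]
        push_cast
        rw [Nat.cast_natAbs]
        push_cast
        rfl
      rw [← d1, ← hπ, map_pow]
      unfold qq
      push_cast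
      rfl
    have c2 : Real.log |(Algebra.norm ℚ (G : k) : ℝ)| = N * j * (n * Real.log (qq p)) +
        Real.log |(Algebra.norm ℚ (G' : k) : ℝ)| := by
      rw [hGk, map_mul, map_pow]
      push_cast
      rw [abs_mul, abs_pow, c1, Real.log_mul (by positivity) (by
        rw [abs_ne_zero]
        have : Algebra.norm ℚ (G' : k) ≠ 0 := by
          rw [Algebra.norm_ne_zero_iff]
          exact hG'k
        exact_mod_cast this), Real.log_pow, Real.log_pow]
      push_cast
      ring
    have c3 : Real.log X ≤ 2 * (m + 1) * Real.log (qq p) := by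
      have := Real.log_le_log hXpos hm2.le
      rw [Real.log_pow] at this
      push_cast at this
      linarith
    have c4 : (m : ℝ) ≤ N * n * j + N * n := by exact_mod_cast hj2.le
    have c5 : (m : ℝ) * Real.log (qq p) ≤ (N * n * j + N * n) * Real.log (qq p) :=
      mul_le_mul_of_nonneg_right c4 hlq.le
    push_cast at hGn
    linarith

end Pool.Agent.Helper892.ER
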