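import Pool.Agent.Helper892.ER.Abs

/-!
Points of `y² = x³ + a x + b` in the kernel of reduction with close parameters.
-/

set_option autoImplicit false

namespace Pool.Agent.Helper892.ER

variable {K : Type} [Field K] {f : AbsoluteValue K ℝ}

lemma abs_y (hf : IsNonarchimedean f) {a b x y : K} (ha : f a ≤ 1) (hb : f b ≤ 1)
    (h : y ^ 2 = x ^ 3 + a * x + b) (hx : 1 < f x) : f y ^ 2 = f x ^ 3 := by
  have h1 : f (a * x) ≤ f x := by
    rw [map_mul]
    exact mul_le_of_le_one_left (f.nonneg x) ha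
  have h2 : f (a * x + b) ≤ f x := na_add_le hf h1 (hb.trans hx.le)
  have h3 : f (a * x + b) < f (x ^ 3) := by
    rw [map_pow]
    refine h2.trans_lt ?_
    nlinarith [mul_pos (sub_pos.2 hx) (sub_pos.2 hx)]
  rw [← map_pow, h, add_assoc, na_add_eq hf h3, map_pow]

lemma abs_z (hf : IsNonarchimedean f) {a b x y : K} (ha : f a ≤ 1) (hb : f b ≤ 1)
    (h : y ^ 2 = x ^ 3 + a * x + b) (hx : 1 < f x) : y ≠ 0 ∧ x ≠ 0 ∧ 0 < f (x / y) ∧
      f (x / y) < 1 ∧ f (x / y) ^ 2 * f x = 1 := by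
  have h1 := abs_y hf ha hb h hx
  have hx0 : x ≠ 0 := by
    rintro rfl
    rw [map_zero] at hx
    linarith
  have hy0 : y ≠ 0 := by
    rintro rfl
    rw [map_zero] at h1
    have : 0 < f x ^ 3 := by positivity
    linarith
  have hfy : 0 < f y := f.pos hy0
  have hfx : 0 < f x := f.pos hx0
  have e : f (x / y) ^ 2 * f x = 1 := by
    rw [map_div₀, div_pow, h1]
    field_simp
  have hpos : 0 < f (x / y) := f.pos (div_ne_zero hx0 hy0)
  refine ⟨hy0, hx0, hpos, ?_, e⟩
  by_contra hcon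
  push Not at hcon
  have h5 : 1 ≤ f (x / y) ^ 2 := one_le_pow₀ hcon
  have h6 : f x ≤ f (x / y) ^ 2 * f x := le_mul_of_one_le_left hfx.le h5
  linarith

theorem close (hf : IsNonarchimedean f) {a b x1 y1 x2 y2 : K} (h2 : f 2 = 1) (ha : f a ≤ 1)
    (hb : f b ≤ 1) (e1 : y1 ^ 2 = x1 ^ 3 + a * x1 + b) (e2 : y2 ^ 2 = x2 ^ 3 + a * x2 + b)
    (hx1 : 1 < f x1) (hx2 : 1 < f x2) (hz : f (x1 / y1 - x2 / y2) < f (x1 / y1)) :
    (x1 = x2 → y1 = y2) ∧ (x1 ≠ x2 →
      f (((y1 + y2) / (x1 - x2)) ^ 2 - x1 - x2) * f (x1 / y1 - x2 / y2) ^ 2 = 1) := by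
  obtain ⟨hy1, hx10, t1pos, t1lt, t1x⟩ := abs_z hf ha hb e1 hx1
  obtain ⟨hy2, hx20, t2pos, t2lt, t2x⟩ := abs_z hf ha hb e2 hx2
  set z1 := x1 / y1 with hz1
  set z2 := x2 / y2 with hz2
  have hz10 : z1 ≠ 0 := div_ne_zero hx10 hy1
  have hz20 : z2 ≠ 0 := div_ne_zero hx20 hy2
  set t := f z1 with ht
  set d := f (z1 - z2) with hd
  have hd0 : 0 ≤ d := f.nonneg _
  have ft2 : f z2 = t := by
    have : z2 = z1 - (z1 - z2) := by ring
    rw [this, na_sub_eq hf hz]
  have fz12 : f (z1 + z2) = t := by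
    have e : z1 + z2 = 2 * z1 - (z1 - z2) := by ring
    have e' : f (2 * z1) = t := by rw [map_mul, h2, one_mul]
    rw [e, na_sub_eq hf (by rw [e']; exact hz), e']
  have fx12 : f x1 = f x2 := by
    rw [ft2] at t2x
    have h3 : t ^ 2 ≠ 0 := by positivity
    exact mul_left_cancel₀ h3 (t1x.trans t2x.symm)
  have fx1 : f x1 = 1 / t ^ 2 := by
    rw [eq_div_iff (by positivity), mul_comm]
    exact t1x
  -- the unit
  set u : K := 1 - (a / (x1 * x2) + b * (x1 + x2) / (x1 * x2) ^ 2) with hu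
  have hX : 0 < f x1 := by linarith
  have fu : f u = 1 := by
    have k1 : f (a / (x1 * x2)) < 1 := by
      rw [map_div₀, map_mul, ← fx12, div_lt_one (by positivity)]
      nlinarith
    have k2 : f (b * (x1 + x2) / (x1 * x2) ^ 2) < 1 := by
      rw [map_div₀, map_pow, map_mul, map_mul, ← fx12, div_lt_one (by positivity)]
      have k3 : f (x1 + x2) ≤ f x1 := na_add_le hf le_rfl fx12.symm.le
      have k4 : f b * f (x1 + x2) ≤ f x1 := by
        calc f b * f (x1 + x2) ≤ 1 * f x1 := mul_le_mul hb k3 (f.nonneg _) zero_le_one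
          _ = f x1 := one_mul _
      have k5 : f x1 < (f x1 * f x1) ^ 2 := by
        nlinarith [mul_pos (sub_pos.2 hx1) hX, mul_pos hX hX, mul_pos (mul_pos hX hX) hX,
          mul_pos (mul_pos (sub_pos.2 hx1) hX) hX]
      linarith
    have k6 := na_add_lt hf k1 k2
    rw [hu, na_sub_eq hf (by rw [map_one]; exact k6), map_one]
  have key : (x1 - x2) * u * (z1 * z2) ^ 2 = -((z1 - z2) * (z1 + z2)) := by
    have r1 : z1 ^ 2 * (x1 + a / x1 + b / x1 ^ 2) = 1 := by
      have : x1 + a / x1 + b / x1 ^ 2 = y1 ^ 2 / x1 ^ 2 := by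
        rw [e1]; field_simp
      rw [this, hz1]
      field_simp
    have r2 : z2 ^ 2 * (x2 + a / x2 + b / x2 ^ 2) = 1 := by
      have : x2 + a / x2 + b / x2 ^ 2 = y2 ^ 2 / x2 ^ 2 := by
        rw [e2]; field_simp
      rw [this, hz2]
      field_simp
    have r3 : (x1 - x2) * u = (x1 + a / x1 + b / x1 ^ 2) - (x2 + a / x2 + b / x2 ^ 2) := by
      rw [hu]
      field_simp
      ring
    rw [r3]
    linear_combination z2 ^ 2 * r1 - z1 ^ 2 * r2
  have fkey : f (x1 - x2) * t ^ 3 = d := by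
    have h3 := congrArg f key
    rw [map_mul, map_mul, map_pow, map_mul, map_neg_eq_map, map_mul, fu, ft2, fz12, ← ht, ← hd]
      at h3
    have h4 : t * (f (x1 - x2) * t ^ 3) = t * d := by linear_combination h3
    exact mul_left_cancel₀ t1pos.ne' h4
  constructor
  · intro hx
    rw [hx, sub_self, map_zero, zero_mul] at fkey
    have h3 : z1 - z2 = 0 := (map_eq_zero f).1 fkey.symm
    have h4 : x1 / y1 = x2 / y2 := sub_eq_zero.1 h3
    rw [hx, div_eq_div_iff hy1 hy2] at h4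
    exact (mul_left_cancel₀ hx20 h4).symm
  · intro hx
    have hfx : 0 < f (x1 - x2) := f.pos (sub_ne_zero.2 hx)
    have hdpos : 0 < d := by rw [← fkey]; positivity
    -- the ordinates
    have r1 : (y1 + y2) * (z1 * z2) = 2 * x1 * z1 - (x1 * (z1 - z2) + (x1 - x2) * z1) := by
      have s1 : y1 * z1 = x1 := by rw [hz1]; field_simp
      have s2 : y2 * z2 = x2 := by rw [hz2]; field_simp
      linear_combination z2 * s1 + z1 * s2
    have m1 : f (2 * x1 * z1) = 1 / t := by
      rw [map_mul, map_mul, h2, one_mul, ← ht, fx1]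
      field_simp
    have m2 : f (x1 * (z1 - z2)) < 1 / t := by
      rw [map_mul, fx1, ← hd, div_mul_eq_mul_div, one_mul, div_lt_div_iff₀ (by positivity) t1pos]
      nlinarith
    have m3 : f ((x1 - x2) * z1) < 1 / t := by
      rw [map_mul, ← ht, lt_div_iff₀ t1pos]
      have h5 : f (x1 - x2) * t * t * t = d := by linear_combination fkey
      have h6 : (f (x1 - x2) * t * t) * t < 1 * t := by
        rw [one_mul, h5]
        exact hz
      exact lt_of_mul_lt_mul_right h6 t1pos.le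
    have m4 : f (y1 + y2) * t ^ 2 = 1 / t := by
      have h3 := congrArg f r1
      rw [na_sub_eq hf (by rw [m1]; exact na_add_lt hf m2 m3), m1, map_mul, map_mul, ft2,
        ← ht] at h3
      rw [← h3]
      ring
    have m5 : f (y1 + y2) = 1 / t ^ 3 := by
      rw [eq_div_iff (by positivity)]
      have : f (y1 + y2) * t ^ 3 = (f (y1 + y2) * t ^ 2) * t := by ring
      rw [this, m4]
      field_simp
    have m6 : f (x1 - x2) = d / t ^ 3 := by
      rw [eq_div_iff (by positivity)]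
      exact fkey
    have m7 : f (((y1 + y2) / (x1 - x2)) ^ 2) = 1 / d ^ 2 := by
      rw [map_pow, map_div₀, m5, m6]
      field_simp
    have m8 : f x1 < 1 / d ^ 2 := by
      rw [fx1]
      exact one_div_lt_one_div_of_lt (by positivity) (by nlinarith)
    have m9 : f (((y1 + y2) / (x1 - x2)) ^ 2 - x1 - x2) = 1 / d ^ 2 := by
      rw [sub_sub, na_sub_eq hf, m7]
      rw [m7]
      exact na_add_lt hf m8 (fx12 ▸ m8)
    rw [m9]
    field_simp

end Pool.Agent.Helper892.ER
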