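import Pool.Agent.Helper892.ER.Pig
import Pool.Agent.Helper892.ER.Dsc
import Pool.Agent.Helper892.QR.FieldN

/-!
Quadratic points of double covers of elliptic curves of positive rank: the error term.
-/

set_option autoImplicit false

open IsDedekindDomain NumberField Height Module Polynomial IntermediateField

namespace Pool.Agent.Helper892.ER

open Pool.Agent.Helper892.VE Pool.Agent.H901R3.MS

variable {k : Type} [Field k] [NumberField k]

/-- a prime which does not contain a given element -/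
lemma exists_prime_notMem (z : 𝓞 k) (hz : z ≠ 0) : ∃ p : HeightOneSpectrum (𝓞 k), z ∉ p.asIdeal := by
  classical
  set N := Ideal.absNorm (Ideal.span {z}) with hN
  have hN0 : N ≠ 0 := by
    rw [hN, Ne, Ideal.absNorm_eq_zero_iff, Ideal.span_singleton_eq_bot]
    exact hz
  obtain ⟨l, hl, hlp⟩ := Nat.exists_infinite_primes (N + 1)
  have hl0 : ((l : ℕ) : 𝓞 k) ≠ 0 := Nat.cast_ne_zero.2 hlp.ne_zero
  have hunit : ¬ IsUnit ((l : ℕ) : 𝓞 k) := by
    intro h
    have h1 : Ideal.span {((l : ℕ) : 𝓞 k)} = ⊤ := Ideal.span_singleton_eq_top.2 h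
    have h2 : Ideal.absNorm (Ideal.span {((l : ℕ) : 𝓞 k)}) = 1 := by
      rw [h1, Ideal.absNorm_top]
    rw [Ideal.absNorm_span_natCast] at h2
    have h3 : 0 < Module.finrank ℤ (𝓞 k) := by
      rw [RingOfIntegers.rank]
      exact finrank_pos
    have h4 := Nat.one_lt_pow h3.ne' hlp.one_lt
    omega
  obtain ⟨I, hI, hlI⟩ := exists_max_ideal_of_mem_nonunits hunit
  have hI0 : I ≠ ⊥ := by
    rintro rfl
    exact hl0 ((Submodule.mem_bot _).1 hlI)
  refine ⟨⟨I, hI.isPrime, hI0⟩, fun hzI => ?_⟩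
  have hzI' : z ∈ I := hzI
  have h1 : Ideal.absNorm I ∣ N := Ideal.absNorm_dvd_absNorm_of_le
    ((Ideal.span_singleton_le_iff_mem _).2 hzI')
  have h2 : Ideal.absNorm I ∣ l ^ Module.finrank ℤ (𝓞 k) := by
    rw [← Ideal.absNorm_span_natCast]
    exact Ideal.absNorm_dvd_absNorm_of_le ((Ideal.span_singleton_le_iff_mem _).2 hlI)
  have h3 : Ideal.absNorm I ≠ 1 := by
    rw [Ne, Ideal.absNorm_eq_one_iff]
    exact hI.ne_top
  obtain ⟨j, hj, hj2⟩ := (Nat.dvd_prime_pow hlp).1 h2
  have hj0 : j ≠ 0 := by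
    rintro rfl
    rw [pow_zero] at hj2
    exact h3 hj2
  have h4 : l ∣ Ideal.absNorm I := by
    rw [hj2]
    exact dvd_pow_self l hj0
  have h5 := Nat.le_of_dvd (Nat.pos_of_ne_zero hN0) (h4.trans h1)
  omega

theorem core [DecidableEq k] (p : HeightOneSpectrum (𝓞 k)) (a b : 𝓞 k)
    (hp : 2 * (4 * a ^ 3 + 27 * b ^ 2) ∉ p.asIdeal) (A B : (𝓞 k)[X]) {N e : ℕ} (hN1 : 1 ≤ N)
    (he : 2 ≤ N * e) (hA : A.natDegree ≤ N * e - 1) (hB : B.natDegree ≤ N * e - 2)
    (hN : A ^ 2 ≠ (X ^ 3 + C a * X + C b) * B ^ 2) {r : ℕ} (hr : 1 ≤ r)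
    (P : Fin r → Pt (a : k) (b : k)) (hP : LinearIndependent ℤ P) :
    ∃ c : ℝ, ∀ T : ℝ, ∃ (x y : k) (L : Type) (_ : Field L) (_ : NumberField L) (_ : Algebra k L)
      (w : L), y ^ 2 = x ^ 3 + a * x + b ∧
      w ^ N = algebraMap k L (aeval x A + aeval x B * y) ∧ k⟮w⟯ = ⊤ ∧ finrank k L ≤ N ∧
      T < logHeight₁ x ∧ 1 < av p x ∧
      lD k L ≤ (N - 1) * e * logHeight₁ x - (N - 1) / N * (Real.log (av p x) / 2) + c ∧
      (r / 2 : ℝ) * Real.log (logHeight₁ x) ≤ Real.log (av p x) / 2 + c := by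
  classical
  obtain ⟨C1, hC1, h1⟩ := exists_close_point p a b hp hr P hP
  obtain ⟨C2, h2⟩ := exists_field_pt p a b A B hN1 he hA hB
  have hq1 := one_lt_qq p
  have hq0 : 0 < qq p := by linarith
  have hrr : (0 : ℝ) < r := by exact_mod_cast hr
  have hNr : (1 : ℝ) ≤ N := by exact_mod_cast hN1
  have fa := av_int p a
  have fb := av_int p b
  refine ⟨max (finrank ℚ k * Real.log N + (N - 1) / N * C2) ((r / 2 : ℝ) * Real.log C1),
    fun T => ?_⟩
  -- exceptional abscissas
  set Nm : (𝓞 k)[X] := A ^ 2 - (X ^ 3 + C a * X + C b) * B ^ 2 with hNm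
  have hNm0 : Nm ≠ 0 := sub_ne_zero.2 hN
  have hNmk : Nm.map (algebraMap (𝓞 k) k) ≠ 0 :=
    (Polynomial.map_ne_zero_iff RingOfIntegers.coe_injective).2 hNm0
  set S : Set k := {x | logHeight₁ x ≤ max T 0} ∪ ((Nm.map (algebraMap (𝓞 k) k)).roots.toFinset : Set k)
    with hS
  have hSfin : S.Finite := (NumberField.finite_setOfPred_logHeight₁_le k (max T 0)).union
    (Finset.finite_toSet _)
  obtain ⟨M, hM⟩ := (hSfin.image (av p)).bddAbove
  obtain ⟨J, hJ⟩ := pow_unbounded_of_one_lt (max M 1) (by nlinarith : 1 < qq p ^ 2)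
  rw [← pow_mul] at hJ
  obtain ⟨x, y, hxy, hx, hxh⟩ := h1 J
  have hxS : x ∉ S := by
    intro h
    have h3 := hM (Set.mem_image_of_mem _ h)
    have h4 := (le_max_left M 1)
    linarith
  have hx1 : 1 < av p x := by
    have h4 := (le_max_right M 1)
    linarith
  rw [hS, Set.mem_union, not_or] at hxS
  obtain ⟨hxT, hxR⟩ := hxS
  have hxT' : max T 0 < logHeight₁ x := by
    rw [Set.mem_ofPred_eq] at hxT
    exact not_le.1 hxT
  have hxT1 : T < logHeight₁ x := (le_max_left _ _).trans_lt hxT'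
  have hxT2 : 0 < logHeight₁ x := (le_max_right _ _).trans_lt hxT'
  have hg : aeval x A + aeval x B * y ≠ 0 := by
    intro h0
    apply hxR
    rw [Finset.mem_coe, Multiset.mem_toFinset, mem_roots hNmk, IsRoot, eval_map_algebraMap, hNm]
    simp only [map_sub, map_mul, map_pow, map_add, aeval_X, aeval_C]
    have e1 : (algebraMap (𝓞 k) k) a = (a : k) := rfl
    have e2 : (algebraMap (𝓞 k) k) b = (b : k) := rfl
    rw [e1, e2, ← hxy]
    linear_combination (aeval x A - aeval x B * y) * h0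
  have hyx := abs_y (av_na p) fa fb hxy hx1
  obtain ⟨G, σ, hG0, hσ, hG, hGn⟩ := h2 x y hxy hx1 hyx hg
  obtain ⟨L, iF, iN, iA, α, hα, htop, hdeg, hld⟩ :=
    Pool.Agent.Helper892.QR.exists_root_field k (N := N) hN1 G hG0
  have hσL : algebraMap k L σ ≠ 0 := by rwa [Ne, map_eq_zero]
  refine ⟨x, y, L, iF, iN, iA, α / algebraMap k L σ, hxy, ?_, ?_, hdeg, hxT1, hx1, ?_, ?_⟩
  · rw [div_pow, hα, hG, map_mul, map_pow]
    field_simp
  · rw [eq_top_iff, ← htop, adjoin_le_iff]
    intro z hz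
    rw [Set.mem_singleton_iff] at hz
    rw [hz]
    have e : (α / algebraMap k L σ) * algebraMap k L σ = α := by field_simp
    have hmem := mul_mem (mem_adjoin_simple_self k (α / algebraMap k L σ))
      (IntermediateField.algebraMap_mem k⟮α / algebraMap k L σ⟯ σ)
    rwa [e] at hmem
  · refine hld.trans ?_
    have h0 : (0 : ℝ) ≤ (N - 1) / N := div_nonneg (by linarith) (by linarith)
    have h3 := mul_le_mul_of_nonneg_left hGn h0
    have h4 : ((N - 1) / N : ℝ) * (N * e * logHeight₁ x - Real.log (av p x) / 2 + C2) =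
        (N - 1) * e * logHeight₁ x - (N - 1) / N * (Real.log (av p x) / 2) +
          (N - 1) / N * C2 := by
      field_simp
    rw [h4] at h3
    have := le_max_left (finrank ℚ k * Real.log N + (N - 1) / N * C2) ((r / 2 : ℝ) * Real.log C1)
    linarith
  · have h3 := Real.log_le_log hxT2 hxh
    rw [Real.log_mul hC1.ne' (by positivity), Real.log_rpow hq0] at h3
    have h4 : (J : ℝ) * Real.log (qq p) ≤ Real.log (av p x) / 2 := by
      have := Real.log_le_log (by positivity) hx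
      rw [Real.log_pow] at this
      push_cast at this
      linarith
    have h5 : (r / 2 : ℝ) * Real.log (logHeight₁ x) ≤
        (r / 2 : ℝ) * (Real.log C1 + 2 * J / r * Real.log (qq p)) :=
      mul_le_mul_of_nonneg_left h3 (by positivity)
    have h6 : (r / 2 : ℝ) * (Real.log C1 + 2 * J / r * Real.log (qq p)) =
        (r / 2 : ℝ) * Real.log C1 + J * Real.log (qq p) := by
      field_simp
    have := le_max_right (finrank ℚ k * Real.log N + (N - 1) / N * C2) ((r / 2 : ℝ) * Real.log C1)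
    linarith

end Pool.Agent.Helper892.ER
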