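import Pool.Agent.Helper892.ER.Abs
import Pool.Agent.H901R3.MS.P_R1K
import Pool.Agent.H901R3.MS.P_R2K
import Pool.Agent.H901R3.MS.P_R3K
import Pool.Agent.H901R3.MS.P_R4K
import Pool.Agent.H901R3.MS.P_R5K
import Pool.Agent.H901R3.MS.P_R6K
import Pool.Agent.H901R3.MS.P_PLK

/-!
The kernel of reduction at a prime of good reduction.
-/

set_option autoImplicit false
set_option linter.style.haveILetI false

open IsDedekindDomain NumberField WeierstrassCurve

namespace Pool.Agent.Helper892.ER

open Pool.Agent.H901R3.MS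

/-- the place defined by a prime -/
theorem exists_place (K : Type) [Field K] [NumberField K] (p : HeightOneSpectrum (𝓞 K))
    (F : Type) [Field F] (φ : 𝓞 K →+* F) (hφ : RingHom.ker φ = p.asIdeal) :
    ∃ v : Place K F, ∀ x : 𝓞 K, (x : K) ∈ v.A ∧ v.r (x : K) = φ x := by
  have hprime : (RingHom.ker φ).IsPrime := RingHom.ker_isPrime φ
  have hPne : RingHom.ker φ ≠ ⊥ := by rw [hφ]; exact p.ne_bot
  generalize hP : RingHom.ker φ = P at hprime hPne
  have hmem : ∀ x : 𝓞 K, x ∈ P ↔ φ x = 0 := fun x => by rw [← hP, RingHom.mem_ker]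
  haveI : IsDiscreteValuationRing (Localization.AtPrime P) :=
    IsLocalization.AtPrime.isDiscreteValuationRing_of_dedekind_domain (𝓞 K) hPne _
  have hg : ∀ y : P.primeCompl, IsUnit (algebraMap (𝓞 K) K y) := by
    intro y
    rw [isUnit_iff_ne_zero, Ne, FaithfulSMul.algebraMap_eq_zero_iff]
    intro h0
    exact y.2 (h0 ▸ P.zero_mem)
  have hφ : ∀ y : P.primeCompl, IsUnit (φ y) := by
    intro y
    rw [isUnit_iff_ne_zero]
    intro h0
    exact y.2 ((hmem _).2 h0)
  letI : Algebra (Localization.AtPrime P) K :=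
    (IsLocalization.lift (M := P.primeCompl) hg : Localization.AtPrime P →+* K).toAlgebra
  haveI : IsScalarTower (𝓞 K) (Localization.AtPrime P) K :=
    IsScalarTower.of_algebraMap_eq fun x => (IsLocalization.lift_eq hg x).symm
  haveI : IsFractionRing (Localization.AtPrime P) K :=
    IsFractionRing.isFractionRing_of_isDomain_of_isLocalization P.primeCompl _ K
  obtain ⟨v, hv⟩ := W_PLK.place_of (K := K) (k := F) (R := Localization.AtPrime P)
    (IsLocalization.lift (M := P.primeCompl) hφ) (by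
      intro r hr
      obtain ⟨⟨a, s⟩, rfl⟩ := IsLocalization.mk'_surjective P.primeCompl r
      have ha : a ∈ P.primeCompl := by
        intro haP
        apply hr
        rw [IsLocalization.lift_mk'_spec, mul_zero]
        exact (hmem a).1 haP
      exact (IsLocalization.AtPrime.isUnit_mk'_iff (Localization.AtPrime P) P a s).2 ha)
  refine ⟨v, fun x => ?_⟩
  have h1 := hv (algebraMap (𝓞 K) _ x)
  rw [← IsScalarTower.algebraMap_apply, IsLocalization.lift_eq] at h1
  exact h1

instance finite_pt {F : Type} [Field F] [Finite F] (a b : F) : Finite (Pt a b) := by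
  refine Finite.of_injective (β := Option (F × F))
    (fun P => match P with
      | Affine.Point.zero => none
      | Affine.Point.some x y _ => some (x, y)) ?_
  intro P Q hPQ
  rcases P with _ | ⟨x, y, h⟩ <;> rcases Q with _ | ⟨x', y', h'⟩
  · rfl
  · simp at hPQ
  · simp at hPQ
  · simp only [Option.some.injEq, Prod.mk.injEq] at hPQ
    obtain ⟨rfl, rfl⟩ := hPQ
    rfl

variable {k : Type} [Field k] [NumberField k]

/-- a multiple of each point is in the kernel of reduction, which is a group -/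
theorem exists_multiple [DecidableEq k] (p : HeightOneSpectrum (𝓞 k)) (a b : 𝓞 k)
    (hp : 2 * (4 * a ^ 3 + 27 * b ^ 2) ∉ p.asIdeal) :
    ∃ n : ℕ, 1 ≤ n ∧ ∀ (P : Pt (a : k) (b : k)) (x y : k)
      (h : (CV (a : k) (b : k)).toAffine.Nonsingular x y),
      n • P = Affine.Point.some x y h → 1 < av p x := by
  classical
  haveI : p.asIdeal.IsMaximal := p.isMaximal
  letI : Field (𝓞 k ⧸ p.asIdeal) := Ideal.Quotient.field p.asIdeal
  haveI : Finite (𝓞 k ⧸ p.asIdeal) := p.asIdeal.finiteQuotientOfFreeOfNeBot p.ne_bot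
  obtain ⟨v, hv⟩ := exists_place k p (𝓞 k ⧸ p.asIdeal) (Ideal.Quotient.mk p.asIdeal)
    (Ideal.mk_ker)
  have hD : Disc (v.r (a : k)) (v.r (b : k)) := by
    unfold Disc
    rw [(hv a).2, (hv b).2]
    intro h0
    apply hp
    rw [← Ideal.Quotient.eq_zero_iff_mem]
    rw [map_mul, map_add, map_mul, map_mul, map_pow, map_pow, map_ofNat, map_ofNat, map_ofNat]
    exact h0
  obtain ⟨red, h1, h2, h3⟩ := t_R6K t_R1K t_R2K t_R3K t_R4K t_R5K k (𝓞 k ⧸ p.asIdeal) v (a : k) (b : k)
    (hv a).1 (hv b).1 hD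
  refine ⟨Nat.card (Pt (v.r (a : k)) (v.r (b : k))), Nat.card_pos, fun P x y h hP => ?_⟩
  by_contra hcon
  push Not at hcon
  -- integral abscissas are in the valuation ring
  have hx : x ∈ v.A := by
    have h4 : p.valuation k x ≤ 1 := by
      have := (av_le_iff p x 0).1 (by simpa using hcon)
      simpa using this
    obtain ⟨n, d, hnd⟩ := p.exists_primeCompl_mul_eq_of_integer x h4
    have hd : v.r ((d : 𝓞 k) : k) ≠ 0 := by
      rw [(hv _).2, Ne, Ideal.Quotient.eq_zero_iff_mem]
      exact d.2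
    have hd0 : ((d : 𝓞 k) : k) ≠ 0 := v.ne_zero_of_r_ne hd
    have e : x = (n : k) * ((d : 𝓞 k) : k)⁻¹ := by
      have hnd' : x * ((d : 𝓞 k) : k) = (n : k) := hnd
      rw [← hnd']
      field_simp
    rw [e]
    exact v.A.mul_mem (hv n).1 (v.inv_mem hd)
  obtain ⟨-, g, hg⟩ := h3 x y h hx
  have h5 : red (Nat.card (Pt (v.r (a : k)) (v.r (b : k))) • P) = 0 := by
    rw [map_nsmul]
    exact card_nsmul_eq_zero'
  rw [hP, hg] at h5
  exact Affine.Point.some_ne_zero g h5

end Pool.Agent.Helper892.ER
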