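import Pool.Agent.Helper892.ER.Close
import Pool.Agent.Helper892.ER.Red
import Pool.Agent.TH942.Par
import Pool.Agent.H437R2.Man.MWCan

/-!
Rational points close to the origin at a prime, of small height.
-/

set_option autoImplicit false
set_option linter.style.haveILetI false

open IsDedekindDomain NumberField WeierstrassCurve Height Module

namespace Pool.Agent.Helper892.ER

open Pool.Agent.H901R3.MS

variable {k : Type} [Field k] [NumberField k]

/-- the height of a linear combination -/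
theorem ht_comb [DecidableEq k] {a b : k} (hD : 4 * a ^ 3 + 27 * b ^ 2 ≠ 0) {r : ℕ}
    (P : Fin r → Pt a b) : ∃ C : ℝ, 0 ≤ C ∧ ∀ (m : Fin r → ℤ) (M : ℝ), 0 ≤ M →
      (∀ i, |(m i : ℝ)| ≤ M) → ∀ (x y : k) (h : (CV a b).toAffine.Nonsingular x y),
      ∑ i, m i • P i = Affine.Point.some x y h → logHeight₁ x ≤ C * M ^ 2 + C := by
  classical
  obtain ⟨C0, hC0, hpar⟩ := Pool.Agent.TH942.spar_law (K := k) (a := a) (b := b) hD
  let ht : Pt a b → ℝ := fun P => Pool.Agent.TH942.sht (K := k) (a := a) (b := b) P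
  have hpar' : ∀ P Q : Pt a b, |ht (P + Q) + ht (P - Q) - 2 * (ht P + ht Q)| ≤ C0 := hpar
  obtain ⟨q, C1, hq1, hq2, hq3⟩ := Pool.Agent.H437R2.Man.MW.canon ht C0
    (fun P => Pool.Agent.TH942.sht_nonneg (K := k) (a := a) (b := b) P) hpar'
  obtain ⟨B, hB1, hB2⟩ := Pool.Agent.H437R2.Man.MW.polar q hq3
  have hC1 : 0 ≤ C1 := (abs_nonneg _).trans (hq1 0)
  refine ⟨∑ i, ∑ j, |B (P i) (P j)| + C1, by positivity, fun m M hM hm x y h hx => ?_⟩
  have e1 : q (∑ i, m i • P i) = ∑ i, ∑ j, (m i : ℝ) * m j * B (P i) (P j) := by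
    rw [← hB1, map_sum]
    refine Finset.sum_congr rfl fun i _ => ?_
    rw [hB2, map_sum]
    refine Finset.sum_congr rfl fun j _ => ?_
    rw [map_zsmul, map_zsmul, AddMonoidHom.zsmul_apply]
    simp only [zsmul_eq_mul]
    ring
  have e2 : q (∑ i, m i • P i) ≤ M ^ 2 * ∑ i, ∑ j, |B (P i) (P j)| := by
    rw [e1, Finset.mul_sum]
    refine Finset.sum_le_sum fun i _ => ?_
    rw [Finset.mul_sum]
    refine Finset.sum_le_sum fun j _ => ?_
    calc (m i : ℝ) * m j * B (P i) (P j) ≤ |(m i : ℝ) * m j * B (P i) (P j)| := le_abs_self _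
      _ = |(m i : ℝ)| * |(m j : ℝ)| * |B (P i) (P j)| := by rw [abs_mul, abs_mul]
      _ ≤ M * M * |B (P i) (P j)| := mul_le_mul_of_nonneg_right
          (mul_le_mul (hm i) (hm j) (abs_nonneg _) hM) (abs_nonneg _)
      _ = M ^ 2 * |B (P i) (P j)| := by ring
  have e3 := hq1 (∑ i, m i • P i)
  rw [abs_le] at e3
  have e4 : ht (∑ i, m i • P i) = logHeight₁ x := by
    rw [hx]
    change logHeight (Affine.Point.xRep (W' := (CV a b).toAffine) (Affine.Point.some x y h)) = _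
    rw [Affine.Point.xRep_some, ← logHeight₁_eq_logHeight]
  have e5 : 0 ≤ ∑ i, ∑ j, |B (P i) (P j)| :=
    Finset.sum_nonneg fun i _ => Finset.sum_nonneg fun j _ => abs_nonneg _
  rw [← e4]
  nlinarith [e3.1, sq_nonneg M]

open Classical in
/-- the parameter `x / y` -/
noncomputable def zz {a b : k} (P : Pt a b) : k :=
  match P with
  | Affine.Point.zero => 0
  | Affine.Point.some x y _ => x / y

/-- points close to the origin -/
theorem exists_close_point [DecidableEq k] (p : HeightOneSpectrum (𝓞 k)) (a b : 𝓞 k)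
    (hp : 2 * (4 * a ^ 3 + 27 * b ^ 2) ∉ p.asIdeal) {r : ℕ} (hr : 1 ≤ r)
    (P : Fin r → Pt (a : k) (b : k)) (hP : LinearIndependent ℤ P) :
    ∃ C : ℝ, 0 < C ∧ ∀ J : ℕ, ∃ x y : k, y ^ 2 = x ^ 3 + a * x + b ∧ qq p ^ (2 * J) ≤ av p x ∧
      logHeight₁ x ≤ C * qq p ^ ((2 * J / r : ℝ)) := by
  classical
  have h2p : (2 : 𝓞 k) ∉ p.asIdeal := fun h => hp (p.asIdeal.mul_mem_right _ h)
  have hDp : 4 * a ^ 3 + 27 * b ^ 2 ∉ p.asIdeal := fun h => hp (p.asIdeal.mul_mem_left _ h)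
  have hD : 4 * (a : k) ^ 3 + 27 * (b : k) ^ 2 ≠ 0 := by
    intro h0
    apply hDp
    have : (4 * a ^ 3 + 27 * b ^ 2 : 𝓞 k) = 0 := by
      apply RingOfIntegers.ext
      change algebraMap (𝓞 k) k (4 * a ^ 3 + 27 * b ^ 2) = algebraMap (𝓞 k) k 0
      rw [map_add, map_mul, map_mul, map_pow, map_pow, map_ofNat, map_ofNat, map_zero]
      exact h0
    rw [this]
    exact p.asIdeal.zero_mem
  have f2 : av p (2 : k) = 1 := by
    have h1 : av p (((2 : 𝓞 k)) : k) ≤ 1 := av_int p 2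
    have h2 : ¬ av p (((2 : 𝓞 k)) : k) < 1 := fun h => h2p ((av_lt_one_iff p 2).1 h)
    have e : (((2 : 𝓞 k)) : k) = 2 := map_ofNat (algebraMap (𝓞 k) k) 2
    rw [e] at h1 h2
    linarith
  have hna := av_na p
  have fa := av_int p a
  have fb := av_int p b
  have hq1 := one_lt_qq p
  have hq0 : 0 < qq p := by linarith
  obtain ⟨n, hn, hker⟩ := exists_multiple p a b hp
  obtain ⟨C0, hC0, hht⟩ := ht_comb hD (fun i => n • P i)
  -- points of the kernel of reduction
  have hkerc : ∀ (m : Fin r → ℤ) (x y : k) (h : (CV (a : k) (b : k)).toAffine.Nonsingular x y),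
      ∑ i, m i • n • P i = Affine.Point.some x y h → 1 < av p x := by
    intro m x y h hx
    refine hker (∑ i, m i • P i) x y h ?_
    rw [← hx, Finset.smul_sum]
    exact Finset.sum_congr rfl fun i _ => smul_comm _ _ _
  have hinj : ∀ m m' : Fin r → ℤ, ∑ i, m i • n • P i = ∑ i, m' i • n • P i → m = m' := by
    intro m m' hmm
    have h1 : ∑ i, ((m i - m' i) * n) • P i = 0 := by
      have : ∑ i, ((m i - m' i) * n) • P i = ∑ i, m i • n • P i - ∑ i, m' i • n • P i := by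
        rw [← Finset.sum_sub_distrib]
        refine Finset.sum_congr rfl fun i _ => ?_
        rw [mul_smul, natCast_zsmul, sub_smul]
      rw [this, hmm, sub_self]
    have h2 := Fintype.linearIndependent_iff.1 hP _ h1
    funext i
    have h3 := h2 i
    rcases mul_eq_zero.1 h3 with h4 | h4
    · exact sub_eq_zero.1 h4
    · exfalso
      have : n = 0 := by exact_mod_cast h4
      omega
  refine ⟨5 * C0 + 1, by positivity, fun J => ?_⟩
  -- the box
  set N : ℕ := ⌊qq p ^ ((J / r : ℝ))⌋₊ + 1 with hN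
  have hNlt : qq p ^ ((J / r : ℝ)) < N := by
    rw [hN]
    push_cast
    exact Nat.lt_floor_add_one _
  have hqJ1 : 1 ≤ qq p ^ ((J / r : ℝ)) := Real.one_le_rpow hq1.le (by positivity)
  have hNle : (N : ℝ) ≤ 2 * qq p ^ ((J / r : ℝ)) := by
    rw [hN]
    push_cast
    have := Nat.floor_le (by linarith : (0 : ℝ) ≤ qq p ^ ((J / r : ℝ)))
    linarith
  have hrr : (0 : ℝ) < r := by exact_mod_cast hr
  have hcard : qq p ^ J < (N : ℝ) ^ r := by
    have e : (qq p ^ ((J / r : ℝ))) ^ r = qq p ^ J := by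
      rw [← Real.rpow_natCast, ← Real.rpow_mul hq0.le]
      rw [div_mul_cancel₀ _ hrr.ne', Real.rpow_natCast]
    rw [← e]
    exact pow_lt_pow_left₀ hNlt (by linarith) (by omega)
  obtain ⟨c, hc⟩ := exists_class p J
  haveI : Finite (𝓞 k ⧸ p.asIdeal ^ J) := Ideal.finiteQuotientOfFreeOfNeBot _
    (pow_ne_zero _ p.ne_bot)
  haveI := Fintype.ofFinite (𝓞 k ⧸ p.asIdeal ^ J)
  let Q : (Fin r → Fin N) → Pt (a : k) (b : k) := fun m => ∑ i, ((m i : ℕ) : ℤ) • n • P i
  have hcard2 : Fintype.card (𝓞 k ⧸ p.asIdeal ^ J) < Fintype.card (Fin r → Fin N) := by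
    rw [Fintype.card_fun, Fintype.card_fin, Fintype.card_fin, ← Nat.card_eq_fintype_card]
    have := card_class p J
    rw [← this] at hcard
    exact_mod_cast hcard
  obtain ⟨m, m', hne, hcc⟩ := Fintype.exists_ne_map_eq_of_card_lt (fun m => c (zz (Q m))) hcard2
  have hQne : Q m ≠ Q m' := by
    intro h
    have h1 := hinj _ _ h
    apply hne
    funext i
    have := congrFun h1 i
    exact Fin.ext (by exact_mod_cast this)
  have hzz : ∀ m : Fin r → Fin N, av p (zz (Q m)) ≤ 1 ∧ (∀ (x y : k)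
      (h : (CV (a : k) (b : k)).toAffine.Nonsingular x y), Q m = Affine.Point.some x y h →
      zz (Q m) = x / y ∧ 1 < av p x ∧ y ^ 2 = x ^ 3 + a * x + b ∧
        av p (x / y) ^ 2 * av p x = 1) := by
    intro m
    have h2 : ∀ (x y : k)
      (h : (CV (a : k) (b : k)).toAffine.Nonsingular x y), Q m = Affine.Point.some x y h →
      zz (Q m) = x / y ∧ 1 < av p x ∧ y ^ 2 = x ^ 3 + a * x + b ∧
        av p (x / y) ^ 2 * av p x = 1 ∧ av p (x / y) < 1 := by
      intro x y h hx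
      have h3 := hkerc _ x y h hx
      have h4 : y ^ 2 = x ^ 3 + a * x + b := eqn_of h
      obtain ⟨-, -, -, h5, h6⟩ := abs_z hna fa fb h4 h3
      exact ⟨by rw [hx]; rfl, h3, h4, h6, h5⟩
    refine ⟨?_, fun x y h hx => ⟨(h2 x y h hx).1, (h2 x y h hx).2.1, (h2 x y h hx).2.2.1,
      (h2 x y h hx).2.2.2.1⟩⟩
    rcases hQm : Q m with _ | ⟨x, y, h⟩
    · have : zz (Affine.Point.zero : Pt (a : k) (b : k)) = 0 := rfl
      rw [this, map_zero]
      exact zero_le_one
    · have := h2 x y h hQm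
      rw [hQm] at this
      rw [this.1]
      exact this.2.2.2.2.le
  have hd := hc _ _ (hzz m).1 (hzz m').1 hcc
  -- the bound for the height
  have hheight : ∀ (u : Fin r → ℤ), (∀ i, |(u i : ℝ)| ≤ N) → ∀ (x y : k)
      (h : (CV (a : k) (b : k)).toAffine.Nonsingular x y),
      ∑ i, u i • n • P i = Affine.Point.some x y h →
      logHeight₁ x ≤ (5 * C0 + 1) * qq p ^ ((2 * J / r : ℝ)) := by
    intro u hu x y h hx
    have h1 := hht u N (Nat.cast_nonneg _) hu x y h hx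
    have e : qq p ^ ((2 * J / r : ℝ)) = (qq p ^ ((J / r : ℝ))) ^ 2 := by
      rw [← Real.rpow_natCast, ← Real.rpow_mul hq0.le]
      congr 1
      push_cast
      ring
    have h2 : (N : ℝ) ^ 2 ≤ (2 * qq p ^ ((J / r : ℝ))) ^ 2 :=
      pow_le_pow_left₀ (Nat.cast_nonneg _) hNle 2
    have h3 : (1 : ℝ) ≤ (qq p ^ ((J / r : ℝ))) ^ 2 := one_le_pow₀ hqJ1
    rw [e]
    nlinarith
  have hbox : ∀ (m : Fin r → Fin N) (i : Fin r), |((((m i : ℕ) : ℤ)) : ℝ)| ≤ N := by
    intro m i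
    rw [Int.cast_natCast, abs_of_nonneg (Nat.cast_nonneg _)]
    exact_mod_cast (m i).2.le
  have hqpow : (qq p ^ (-(J : ℤ))) ^ 2 * qq p ^ (2 * J) = 1 := by
    rw [zpow_neg, zpow_natCast, inv_pow, ← pow_mul, mul_comm J 2]
    exact inv_mul_cancel₀ (pow_ne_zero _ hq0.ne')
  have hqpos : 0 < qq p ^ (-(J : ℤ)) := zpow_pos hq0 _
  -- the conclusion for a point with small parameter
  have hsmall : ∀ X t : ℝ, 0 < t → t ≤ qq p ^ (-(J : ℤ)) → t ^ 2 * X = 1 → qq p ^ (2 * J) ≤ X := by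
    intro X t ht1 ht2 htX
    have h1 : t ^ 2 ≤ (qq p ^ (-(J : ℤ))) ^ 2 := pow_le_pow_left₀ ht1.le ht2 2
    have h2 : t ^ 2 * qq p ^ (2 * J) ≤ t ^ 2 * X := by
      rw [htX, ← hqpow]
      exact mul_le_mul_of_nonneg_right h1 (by positivity)
    exact le_of_mul_le_mul_left h2 (by positivity)
  by_cases hcase : av p (zz (Q m) - zz (Q m')) < av p (zz (Q m))
  · -- both points are different from the origin
    have hz0 : av p (zz (Q m)) ≠ 0 := fun h => by
      rw [h] at hcase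
      exact absurd hcase (not_lt.2 ((av p).nonneg _))
    have hz0' : av p (zz (Q m')) ≠ 0 := by
      have : zz (Q m') = zz (Q m) - (zz (Q m) - zz (Q m')) := by ring
      rw [this, na_sub_eq hna hcase]
      exact hz0
    rcases hQm : Q m with _ | ⟨x1, y1, h1⟩
    · rw [hQm] at hz0
      exact absurd (map_zero (av p)) hz0
    rcases hQm' : Q m' with _ | ⟨x2, y2, h2⟩
    · rw [hQm'] at hz0'
      exact absurd (map_zero (av p)) hz0'
    obtain ⟨z1, fx1, e1, -⟩ := (hzz m).2 x1 y1 h1 hQm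
    obtain ⟨z2, fx2, e2, -⟩ := (hzz m').2 x2 y2 h2 hQm'
    rw [z1, z2] at hcase hd
    obtain ⟨k1, k2⟩ := close hna f2 fa fb e1 e2 fx1 fx2 hcase
    have hx12 : x1 ≠ x2 := by
      intro h
      apply hQne
      rw [hQm, hQm']
      have h3 := k1 h
      subst h
      subst h3
      rfl
    have k3 := k2 hx12
    have h2' : (CV (a : k) (b : k)).toAffine.Nonsingular x2 (-y2) := by
      have hD' : Disc (a : k) (b : k) := mul_ne_zero two_ne_zero hD
      rw [nonsingular_iff hD']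
      unfold Eqn
      rw [neg_sq]
      exact e2
    obtain ⟨h3, h4⟩ := add_ne h1 h2' hx12 ((y1 + y2) / (x1 - x2)) _ _
      (by rw [sub_neg_eq_add]) rfl rfl
    refine ⟨((y1 + y2) / (x1 - x2)) ^ 2 - x1 - x2, _, eqn_of h3, ?_, ?_⟩
    · refine hsmall _ (av p (x1 / y1 - x2 / y2)) ?_ hd (by rw [mul_comm]; exact k3)
      apply (av p).pos
      intro h0
      rw [h0, map_zero, zero_pow two_ne_zero, mul_zero] at k3
      exact zero_ne_one k3
    · refine hheight (fun i => ((m i : ℕ) : ℤ) - ((m' i : ℕ) : ℤ)) ?_ _ _ h3 ?_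
      · intro i
        have b1 : ((m i : ℕ) : ℝ) < N := by exact_mod_cast (m i).2
        have b2 : ((m' i : ℕ) : ℝ) < N := by exact_mod_cast (m' i).2
        have b3 : (0 : ℝ) ≤ ((m i : ℕ) : ℝ) := Nat.cast_nonneg _
        have b4 : (0 : ℝ) ≤ ((m' i : ℕ) : ℝ) := Nat.cast_nonneg _
        push_cast
        rw [abs_le]
        constructor <;> linarith
      · have e5 : ∑ i, (((m i : ℕ) : ℤ) - ((m' i : ℕ) : ℤ)) • n • P i = Q m - Q m' := by
          simp only [Q]
          rw [← Finset.sum_sub_distrib]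
          exact Finset.sum_congr rfl fun i _ => sub_smul _ _ _
        rw [e5, hQm, hQm', sub_eq_add_neg, neg_some' h2 h2', h4]
  · push Not at hcase
    have t1 : av p (zz (Q m)) ≤ qq p ^ (-(J : ℤ)) := hcase.trans hd
    have t2 : av p (zz (Q m')) ≤ qq p ^ (-(J : ℤ)) := by
      have : zz (Q m') = zz (Q m) - (zz (Q m) - zz (Q m')) := by ring
      rw [this]
      exact na_sub_le hna t1 hd
    have hfin : ∀ m : Fin r → Fin N, av p (zz (Q m)) ≤ qq p ^ (-(J : ℤ)) → Q m ≠ 0 →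
        ∃ x y : k, y ^ 2 = x ^ 3 + a * x + b ∧ qq p ^ (2 * J) ≤ av p x ∧
      logHeight₁ x ≤ (5 * C0 + 1) * qq p ^ ((2 * J / r : ℝ)) := by
      intro m ht hQ0
      rcases hQm : Q m with _ | ⟨x, y, h⟩
      · exact absurd hQm hQ0
      · obtain ⟨z1, fx1, e1, e3⟩ := (hzz m).2 x y h hQm
        obtain ⟨-, -, tpos, -, -⟩ := abs_z hna fa fb e1 fx1
        rw [z1] at ht
        exact ⟨x, y, e1, hsmall _ _ tpos ht e3, hheight _ (hbox m) x y h hQm⟩
    by_cases h0 : Q m = 0
    · exact hfin m' t2 (fun h => hQne (h0.trans h.symm))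
    · exact hfin m t1 h0

end Pool.Agent.Helper892.ER
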