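import Pool.Agent.Helper892.VE.Dup
import Pool.Agent.Helper892.ER.Abs
import Pool.Agent.H901R3.MS.Defs

/-!
The rank of an elliptic curve over extensions of a number field is unbounded.
-/

set_option autoImplicit false

open IsDedekindDomain NumberField Height Module WeierstrassCurve

namespace Pool.Agent.Helper892.ER

open Pool.Agent.Helper892.VE Pool.Agent.H901R3.MS Pool.Agent.Y720.MZ

section dbl

variable {F : Type} [Field F]

lemma dbl_pt [CharZero F] [DecidableEq F] {W : WeierstrassCurve F} {a b : F} (hW : W = CV a b)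
    {x y : F} (h : W.toAffine.Nonsingular x y) (hy : y ≠ 0) :
    ∃ (y' : F) (h' : W.toAffine.Nonsingular (dd 0 a b x) y'),
      Affine.Point.some x y h + Affine.Point.some x y h = Affine.Point.some (dd 0 a b x) y' h' := by
  subst hW
  have hneg : (CV a b).toAffine.negY x y = -y := by
    simp [Affine.negY, CV]
  have hy2 : y ≠ (CV a b).toAffine.negY x y := by
    rw [hneg]
    intro h0
    apply hy
    have h1 : 2 * y = 0 := by linear_combination h0
    rcases mul_eq_zero.1 h1 with h2 | h2
    · exact absurd h2 two_ne_zero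
    · exact h2
  have heq : y ^ 2 = x ^ 3 + a * x + b := equation_iff.1 h.1
  have h1 := Affine.Point.add_self_of_Y_ne (h₁ := h) hy2
  have hX : (CV a b).toAffine.addX x x ((CV a b).toAffine.slope x x y y) = dd 0 a b x := by
    rw [Affine.slope_of_Y_ne rfl hy2, hneg]
    simp only [Affine.addX, CV, dd, dN, dD]
    have h2y : (2 : F) * y ≠ 0 := mul_ne_zero two_ne_zero hy
    have e0 : y - -y = 2 * y := by ring
    have e1 : 4 * (x ^ 3 + 0 * x ^ 2 + a * x + b) = (2 * y) ^ 2 := by
      linear_combination -4 * heq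
    rw [e0, e1]
    field_simp
    linear_combination (-8 * x) * heq
  have key : ∀ (X' Y' : F) (h' : (CV a b).toAffine.Nonsingular X' Y'), X' = dd 0 a b x →
      ∃ (y' : F) (h'' : (CV a b).toAffine.Nonsingular (dd 0 a b x) y'),
        Affine.Point.some X' Y' h' = Affine.Point.some (dd 0 a b x) y' h'' := by
    intro X' Y' h' hh
    subst hh
    exact ⟨Y', h', rfl⟩
  rw [h1]
  exact key _ _ _ hX

end dbl

variable {K : Type} [Field K] [NumberField K]

/-- points with abscissa in `K` of large height are not torsion points -/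
theorem nontors {a b : K} (hD : 4 * a ^ 3 + 27 * b ^ 2 ≠ 0) : ∃ B : ℝ, ∀ x : K, B < logHeight₁ x →
    ∀ (L : Type) [Field L] [CharZero L] [Algebra K L] [DecidableEq L] (W : WeierstrassCurve L)
      (_ : W = CV (algebraMap K L a) (algebraMap K L b)) (y : L)
      (h : W.toAffine.Nonsingular (algebraMap K L x) y) (n : ℤ),
      n • Affine.Point.some _ _ h = 0 → n = 0 := by
  have hD' : dsc 0 a b ≠ 0 := by
    unfold dsc
    intro h
    apply hD
    linear_combination -h
  obtain ⟨B, hB0, hB⟩ := dup_height hD'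
  refine ⟨B, fun x hx L _ _ _ _ W hW y h n hn => ?_⟩
  by_contra hn0
  -- heights of the iterates
  have hbig : ∀ m : ℕ, B < logHeight₁ ((dd 0 a b)^[m] x) := by
    intro m
    induction m with
    | zero => exact hx
    | succ m ih =>
      have hd : dD 0 a b ((dd 0 a b)^[m] x) ≠ 0 := fun h0 => by
        have := (hB _).1 h0
        linarith
      have h9 := (hB _).2 hd
      rw [abs_le] at h9
      rw [Function.iterate_succ_apply']
      linarith [h9.1]
  have hd : ∀ m : ℕ, dD 0 a b ((dd 0 a b)^[m] x) ≠ 0 := fun m h0 => by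
    have := (hB _).1 h0
    have := hbig m
    linarith
  have hmono : StrictMono fun m : ℕ => logHeight₁ ((dd 0 a b)^[m] x) := by
    refine strictMono_nat_of_lt_succ fun m => ?_
    have h9 := (hB _).2 (hd m)
    rw [abs_le] at h9
    have h10 := hbig m
    rw [Function.iterate_succ_apply']
    linarith [h9.1]
  -- the duplicates
  have hstep : ∀ m : ℕ, ∃ (Y : L) (hh : W.toAffine.Nonsingular
      (algebraMap K L ((dd 0 a b)^[m] x)) Y),
      (2 ^ m) • Affine.Point.some _ _ h = Affine.Point.some _ _ hh := by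
    intro m
    induction m with
    | zero => exact ⟨y, h, by simp⟩
    | succ m ih =>
      obtain ⟨Y, hh, h1⟩ := ih
      set t := (dd 0 a b)^[m] x with ht
      have heq : Y ^ 2 = (algebraMap K L t) ^ 3 + algebraMap K L a * algebraMap K L t +
          algebraMap K L b := by
        have h5 := hh.1
        rw [hW] at h5
        exact equation_iff.1 h5
      have hY : Y ≠ 0 := by
        intro hY0
        apply hd m
        rw [hY0] at heq
        have h6 : algebraMap K L (dD 0 a b t) = 0 := by
          unfold dD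
          simp only [map_mul, map_add, map_pow, map_zero]
          linear_combination (-(algebraMap K L 4)) * heq
        exact (map_eq_zero _).1 h6
      obtain ⟨y', h', h7⟩ := dbl_pt hW hh hY
      have e1 : dd 0 (algebraMap K L a) (algebraMap K L b) (algebraMap K L t) =
          algebraMap K L ((dd 0 a b)^[m + 1] x) := by
        rw [Function.iterate_succ_apply', ← ht]
        simp only [dd, dN, dD, map_div₀, map_mul, map_add, map_sub, map_pow, map_zero, map_ofNat]
      have key : ∀ (X' : L) (hx' : W.toAffine.Nonsingular X' y'),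
          X' = algebraMap K L ((dd 0 a b)^[m + 1] x) →
          ∃ (hx'' : W.toAffine.Nonsingular (algebraMap K L ((dd 0 a b)^[m + 1] x)) y'),
          Affine.Point.some X' y' hx' = Affine.Point.some _ _ hx'' := by
        intro X' hx' hh'
        subst hh'
        exact ⟨hx', rfl⟩
      obtain ⟨hx'', h8⟩ := key _ h' e1
      exact ⟨y', hx'', by rw [pow_succ, mul_smul, two_smul, smul_add, h1, h7, h8]⟩
  have hinj : Function.Injective fun m : ℕ => (2 ^ m) • Affine.Point.some _ _ h := by
    intro m m' hmm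
    obtain ⟨Y, hh, h1⟩ := hstep m
    obtain ⟨Y', hh', h1'⟩ := hstep m'
    simp only at hmm
    rw [h1, h1'] at hmm
    have h2 := (Affine.Point.some.inj hmm).1
    have h3 := (algebraMap K L).injective h2
    exact hmono.injective (congrArg logHeight₁ h3)
  have hfin : IsOfFinAddOrder (Affine.Point.some _ _ h) := by
    rw [isOfFinAddOrder_iff_zsmul_eq_zero]
    exact ⟨n, hn0, hn⟩
  have h4 := (finite_multiples.2 hfin)
  refine Set.infinite_range_of_injective hinj (h4.subset ?_)
  rintro _ ⟨m, rfl⟩
  exact ⟨2 ^ m, rfl⟩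

/-- abscissas with quadratic ordinates -/
theorem exists_nonsq (p : HeightOneSpectrum (𝓞 K)) (a b : 𝓞 K) (B : ℝ) : ∃ x : K,
    B < logHeight₁ x ∧ ¬ IsSquare (x ^ 3 + a * x + b) := by
  obtain ⟨π, hπ⟩ := p.valuation_exists_uniformizer K
  have hπ0 : π ≠ 0 := by
    rintro rfl
    rw [map_zero] at hπ
    exact WithZero.exp_ne_zero hπ.symm
  set v := p.valuation K with hv
  have hx : ∀ n : ℕ, v ((π ^ (2 * n + 1))⁻¹) = WithZero.exp ((2 * n + 1 : ℕ) : ℤ) := by
    intro n
    rw [map_inv₀, map_pow, hπ, ← WithZero.exp_nsmul, ← WithZero.exp_neg]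
    congr 1
    simp
  have hinj : Function.Injective fun n : ℕ => (π ^ (2 * n + 1))⁻¹ := by
    intro m n h
    have h1 := congrArg v h
    simp only at h1
    rw [hx, hx] at h1
    have h2 := WithZero.exp_injective h1
    omega
  obtain ⟨n, hn⟩ : ∃ n : ℕ, B < logHeight₁ ((π ^ (2 * n + 1))⁻¹) := by
    by_contra hcon
    push Not at hcon
    refine Set.infinite_range_of_injective hinj
      ((NumberField.finite_setOfPred_logHeight₁_le K B).subset ?_)
    rintro _ ⟨n, rfl⟩
    exact hcon n
  refine ⟨(π ^ (2 * n + 1))⁻¹, hn, ?_⟩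
  set x := (π ^ (2 * n + 1))⁻¹ with hxd
  have hvx : v x = WithZero.exp ((2 * n + 1 : ℕ) : ℤ) := hx n
  have h1x : 1 < v x := by
    rw [hvx, ← WithZero.exp_zero, WithZero.exp_lt_exp]
    positivity
  have ha : v (a : K) ≤ 1 := p.valuation_le_one a
  have hb : v (b : K) ≤ 1 := p.valuation_le_one b
  have h2 : v (a * x + b) ≤ v x := by
    refine (v.map_add _ _).trans (max_le ?_ (hb.trans h1x.le))
    rw [map_mul]
    exact mul_le_of_le_one_left' ha
  have h3 : v x < v (x ^ 3) := by
    rw [map_pow, hvx, ← WithZero.exp_nsmul, WithZero.exp_lt_exp]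
    simp only [nsmul_eq_mul]
    push_cast
    nlinarith
  have h4 : v (x ^ 3 + a * x + b) = WithZero.exp ((3 * (2 * n + 1) : ℕ) : ℤ) := by
    rw [add_assoc, v.map_add_eq_of_lt_left (h2.trans_lt h3), map_pow, hvx, ← WithZero.exp_nsmul]
    congr 1
  rintro ⟨y, hy⟩
  rw [hy, map_mul] at h4
  have hy0 : v y ≠ 0 := by
    intro h0
    rw [h0, mul_zero] at h4
    exact WithZero.exp_ne_zero h4.symm
  obtain ⟨m, hm⟩ : ∃ m : ℤ, v y = WithZero.exp m := ⟨WithZero.log (v y), (WithZero.exp_log hy0).symm⟩
  rw [hm, ← WithZero.exp_add] at h4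
  have h5 := WithZero.exp_injective h4
  omega

/-- a quadratic extension of a number field -/
theorem exists_quad {c : K} (hc : ¬ IsSquare c) : ∃ (L : Type) (_ : Field L) (_ : NumberField L)
    (_ : Algebra K L) (s : L) (σ : L →ₐ[K] L), s ^ 2 = algebraMap K L c ∧ σ s = -s := by
  have hirr : Irreducible (Polynomial.X ^ 2 - Polynomial.C c : Polynomial K) := by
    refine X_pow_sub_C_irreducible_of_prime Nat.prime_two fun b hb => hc ⟨b, ?_⟩
    rw [← hb, sq]
  have : Fact (Irreducible (Polynomial.X ^ 2 - Polynomial.C c : Polynomial K)) := ⟨hirr⟩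
  set f : Polynomial K := Polynomial.X ^ 2 - Polynomial.C c with hf
  have hfin : FiniteDimensional K (AdjoinRoot f) := (AdjoinRoot.powerBasis hirr.ne_zero).finite
  have : NumberField (AdjoinRoot f) := NumberField.of_module_finite K (AdjoinRoot f)
  have hs : (AdjoinRoot.root f) ^ 2 = algebraMap K (AdjoinRoot f) c := by
    have := AdjoinRoot.eval₂_root f
    rw [hf] at this
    simp only [Polynomial.eval₂_sub, Polynomial.eval₂_pow, Polynomial.eval₂_X,
      Polynomial.eval₂_C, sub_eq_zero] at this
    exact this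
  have hev : Polynomial.eval₂ (Algebra.ofId K (AdjoinRoot f) : K →+* AdjoinRoot f)
      (-AdjoinRoot.root f) (Polynomial.X ^ 2 - Polynomial.C c) = 0 := by
    simp only [Polynomial.eval₂_sub, Polynomial.eval₂_pow, Polynomial.eval₂_X,
      Polynomial.eval₂_C, sub_eq_zero]
    rw [neg_sq]
    exact hs
  exact ⟨AdjoinRoot f, inferInstance, inferInstance, inferInstance, AdjoinRoot.root f,
    AdjoinRoot.liftAlgHom f (Algebra.ofId K (AdjoinRoot f)) (-AdjoinRoot.root f) hev, hs,
    AdjoinRoot.liftAlgHom_root _ _ _ _⟩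

/-- a number field has a prime -/
theorem exists_prime (K : Type) [Field K] [NumberField K] : ∃ _ : HeightOneSpectrum (𝓞 K), True := by
  have h2 : ((2 : ℕ) : 𝓞 K) ≠ 0 := Nat.cast_ne_zero.2 two_ne_zero
  have hunit : ¬ IsUnit ((2 : ℕ) : 𝓞 K) := by
    intro h
    have h1 : Ideal.span {((2 : ℕ) : 𝓞 K)} = ⊤ := Ideal.span_singleton_eq_top.2 h
    have h2 : Ideal.absNorm (Ideal.span {((2 : ℕ) : 𝓞 K)}) = 1 := by
      rw [h1, Ideal.absNorm_top]
    rw [Ideal.absNorm_span_natCast] at h2
    have h3 : 0 < Module.finrank ℤ (𝓞 K) := by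
      rw [RingOfIntegers.rank]
      exact finrank_pos
    have h4 := Nat.one_lt_pow h3.ne' (by norm_num : 1 < 2)
    omega
  obtain ⟨I, hI, hlI⟩ := exists_max_ideal_of_mem_nonunits hunit
  have hI0 : I ≠ ⊥ := by
    rintro rfl
    exact h2 ((Submodule.mem_bot _).1 hlI)
  exact ⟨⟨I, hI.isPrime, hI0⟩, trivial⟩

/-- one more point -/
theorem rank_step {k : Type} [Field k] [NumberField k] (a b : 𝓞 k)
    (hD : 4 * a ^ 3 + 27 * b ^ 2 ≠ 0) (K : Type) [Field K] [NumberField K] [Algebra k K]
    [DecidableEq K] {r : ℕ} (P : Fin r → ((CV (a : k) (b : k)).baseChange K).toAffine.Point)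
    (hP : LinearIndependent ℤ P) :
    ∃ (L : Type) (_ : Field L) (_ : NumberField L) (_ : Algebra k L) (_ : DecidableEq L)
      (Q : Fin (r + 1) → ((CV (a : k) (b : k)).baseChange L).toAffine.Point), LinearIndependent ℤ Q := by
  classical
  set aK : 𝓞 K := algebraMap (𝓞 k) (𝓞 K) a with haK
  set bK : 𝓞 K := algebraMap (𝓞 k) (𝓞 K) b with hbK
  have haK' : (aK : K) = algebraMap k K (a : k) := by
    rw [haK]
    exact (IsScalarTower.algebraMap_apply (𝓞 k) (𝓞 K) K a).symm.trans
      (IsScalarTower.algebraMap_apply (𝓞 k) k K a)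
  have hbK' : (bK : K) = algebraMap k K (b : k) := by
    rw [hbK]
    exact (IsScalarTower.algebraMap_apply (𝓞 k) (𝓞 K) K b).symm.trans
      (IsScalarTower.algebraMap_apply (𝓞 k) k K b)
  have hDK : 4 * (aK : K) ^ 3 + 27 * (bK : K) ^ 2 ≠ 0 := by
    rw [haK', hbK']
    have h1 : algebraMap k K (algebraMap (𝓞 k) k (4 * a ^ 3 + 27 * b ^ 2)) ≠ 0 := by
      rw [Ne, map_eq_zero]
      exact RingOfIntegers.coe_ne_zero_iff.2 hD
    intro h
    apply h1
    rw [← h]
    simp only [map_add, map_mul, map_pow, map_ofNat]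
  obtain ⟨B, hB⟩ := nontors hDK
  obtain ⟨p, -⟩ := exists_prime K
  obtain ⟨x, hx, hsq⟩ := exists_nonsq p aK bK B
  obtain ⟨L, iF, iN, iA, s, σ, hs, hσ⟩ := exists_quad hsq
  let iAk : Algebra k L := ((algebraMap K L).comp (algebraMap k K)).toAlgebra
  have : IsScalarTower k K L := IsScalarTower.of_algebraMap_eq fun _ => rfl
  -- the curve over L
  have hW : (CV (a : k) (b : k)).baseChange L =
      CV (algebraMap K L (aK : K)) (algebraMap K L (bK : K)) := by
    rw [haK', hbK', ← IsScalarTower.algebraMap_apply k K L, ← IsScalarTower.algebraMap_apply k K L]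
    simp only [CV, WeierstrassCurve.baseChange, WeierstrassCurve.map, map_zero]
  have hns : ∀ t : L, t ^ 2 = s ^ 2 →
      ((CV (a : k) (b : k)).baseChange L).toAffine.Nonsingular (algebraMap K L x) t := by
    intro t ht
    rw [hW]
    refine (nonsingular_iff ?_).2 ?_
    · unfold Disc
      have h1 : (2 : L) * algebraMap K L (4 * (aK : K) ^ 3 + 27 * (bK : K) ^ 2) ≠ 0 :=
        mul_ne_zero two_ne_zero (by rwa [Ne, map_eq_zero])
      intro h
      apply h1
      rw [← h]
      simp only [map_add, map_mul, map_pow, map_ofNat]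
    · unfold Eqn
      rw [ht, hs]
      simp only [map_add, map_mul, map_pow]
  set ι : ((CV (a : k) (b : k)).baseChange K).toAffine.Point →+ ((CV (a : k) (b : k)).baseChange L).toAffine.Point :=
    Affine.Point.map (IsScalarTower.toAlgHom k K L) with hι
  set τ : ((CV (a : k) (b : k)).baseChange L).toAffine.Point →+ ((CV (a : k) (b : k)).baseChange L).toAffine.Point :=
    Affine.Point.map (σ.restrictScalars k) with hτ
  have hτι : ∀ R, τ (ι R) = ι R := by
    intro R
    have e : (σ.restrictScalars k).comp (IsScalarTower.toAlgHom k K L) =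
        IsScalarTower.toAlgHom k K L := by
      ext z
      exact σ.commutes z
    rw [hτ, hι, Affine.Point.map_map, e]
  set Q : ((CV (a : k) (b : k)).baseChange L).toAffine.Point := Affine.Point.some _ _ (hns s rfl) with hQ
  have hτQ : τ Q = -Q := by
    rw [hτ, hQ, Affine.Point.map_some, Affine.Point.neg_some]
    simp only [Affine.Point.some.injEq]
    refine ⟨σ.commutes x, ?_⟩
    change σ s = _
    rw [hσ]
    simp [Affine.negY, CV, WeierstrassCurve.baseChange, WeierstrassCurve.map]
  refine ⟨L, iF, iN, iAk, inferInstance, Fin.cons Q (fun i => ι (P i)), ?_⟩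
  refine LinearIndependent.finCons' _ _ ?_ ?_
  · exact hP.map' ι.toIntLinearMap (LinearMap.ker_eq_bot.2
      (Affine.Point.map_injective (IsScalarTower.toAlgHom k K L)))
  · intro c y hy hcy
    have hτy : τ y = y := by
      clear hcy
      induction hy using Submodule.span_induction with
      | mem z hz =>
        obtain ⟨i, rfl⟩ := hz
        exact hτι _
      | zero => exact map_zero τ
      | add u v _ _ hu hv => rw [map_add, hu, hv]
      | smul n u _ hu => rw [map_zsmul, hu]
    have h1 := congrArg τ hcy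
    rw [map_add, map_zsmul, hτQ, hτy, map_zero] at h1
    have h2 : (2 * c) • Q = 0 := by
      have : (2 * c) • Q = (c • Q + y) - (c • (-Q) + y) := by
        module
      rw [this, hcy, h1, sub_zero]
    have h3 := hB x hx L _ hW s (hns s rfl) (2 * c) h2
    omega

/-- the rank is unbounded -/
theorem exists_rank {k : Type} [Field k] [NumberField k] (a b : 𝓞 k)
    (hD : 4 * a ^ 3 + 27 * b ^ 2 ≠ 0) (r : ℕ) :
    ∃ (L : Type) (_ : Field L) (_ : NumberField L) (_ : Algebra k L) (_ : DecidableEq L)
      (Q : Fin r → ((CV (a : k) (b : k)).baseChange L).toAffine.Point), LinearIndependent ℤ Q := by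
  classical
  induction r with
  | zero =>
    exact ⟨k, inferInstance, inferInstance, inferInstance, inferInstance, Fin.elim0,
      linearIndependent_empty_type⟩
  | succ r ih =>
    obtain ⟨K, iF, iN, iA, iD, P, hP⟩ := ih
    exact rank_step a b hD K P hP

end Pool.Agent.Helper892.ER
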